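import Mathlib

/-!
Asymptotic count of monomials of bounded weight.
-/

namespace Pool.Agent.HartE

/-- Number of exponent vectors of weight at most `K`, from below. -/
lemma asym_card {ι : Type} [Fintype ι] [DecidableEq ι] (wt : ι → ℕ) (hwt : ∀ j, 0 < wt j)
    (K : ℕ) : ∃ S : Finset (ι →₀ ℕ), (∀ μ ∈ S, Finsupp.weight wt μ ≤ K) ∧
      (Fintype.card ι + K).choose (Fintype.card ι) ≤ S.card * ∏ j, wt j := by
  classical
  set A : Finset (Option ι →₀ ℕ) := Finset.finsuppAntidiag (Finset.univ : Finset (Option ι)) K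
    with hA
  set g : (Option ι →₀ ℕ) → (ι →₀ ℕ) := fun κ =>
    Finsupp.equivFunOnFinite.symm (fun j => κ (some j) / wt j) with hg
  have hgap : ∀ κ j, g κ j = κ (some j) / wt j := by
    intro κ j
    simp [hg]
  have hAc : A.card = (Fintype.card ι + K).choose (Fintype.card ι) := by
    rw [hA, Finset.card_finsuppAntidiag_nat_eq_choose, Finset.card_univ, Fintype.card_option]
    have h1 : Fintype.card ι + 1 + K - 1 = Fintype.card ι + K := by omega
    rw [h1]
    exact Nat.choose_symm_add.symm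
  have hAsum : ∀ κ ∈ A, κ none + ∑ j, κ (some j) = K := by
    intro κ hκ
    rw [hA, Finset.mem_finsuppAntidiag] at hκ
    rw [← hκ.1]
    exact (Fintype.sum_option (fun i => κ i)).symm
  refine ⟨A.image g, ?_, ?_⟩
  · intro μ hμ
    rw [Finset.mem_image] at hμ
    obtain ⟨κ, hκ, rfl⟩ := hμ
    rw [Finsupp.weight_apply, Finsupp.sum_fintype _ _ (by intro i; simp)]
    calc ∑ i, (g κ) i • wt i ≤ ∑ i, κ (some i) := by
          refine Finset.sum_le_sum (fun i _ => ?_)
          rw [hgap, smul_eq_mul]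
          exact Nat.div_mul_le_self _ _
      _ ≤ K := by
          have := hAsum κ hκ
          omega
  · rw [← hAc]
    have hP : (Fintype.piFinset (fun j => Finset.range (wt j))).card = ∏ j, wt j := by
      rw [Fintype.card_piFinset]
      simp
    rw [← hP, ← Finset.card_product]
    refine Finset.card_le_card_of_injOn (fun κ => (g κ, fun j => κ (some j) % wt j)) ?_ ?_
    · intro κ hκ
      rw [Finset.mem_coe] at hκ
      rw [Finset.mem_coe, Finset.mem_product]
      refine ⟨Finset.mem_image_of_mem _ hκ, ?_⟩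
      rw [Fintype.mem_piFinset]
      intro j
      rw [Finset.mem_range]
      exact Nat.mod_lt _ (hwt j)
    · intro κ hκ κ' hκ' h
      rw [Finset.mem_coe] at hκ hκ'
      have h1 : g κ = g κ' := congrArg Prod.fst h
      have h2 : (fun j => κ (some j) % wt j) = fun j => κ' (some j) % wt j := congrArg Prod.snd h
      have h3 : ∀ j, κ (some j) = κ' (some j) := by
        intro j
        have h4 : κ (some j) / wt j = κ' (some j) / wt j := by
          rw [← hgap, ← hgap, h1]
        have h5 : κ (some j) % wt j = κ' (some j) % wt j := congrFun h2 j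
        rw [← Nat.div_add_mod (κ (some j)) (wt j), ← Nat.div_add_mod (κ' (some j)) (wt j), h4, h5]
      ext o
      cases o with
      | some j => exact h3 j
      | none =>
        have h6 := hAsum κ hκ
        have h7 := hAsum κ' hκ'
        have h8 : ∑ j, κ (some j) = ∑ j, κ' (some j) := Finset.sum_congr rfl (fun j _ => h3 j)
        omega

theorem asym {n d : ℕ} {ι : Type} [Fintype ι] [DecidableEq ι] (hι : Fintype.card ι = n)
    (wt : ι → ℕ) (hwt : ∀ j, 0 < wt j) (p q₀ : ℕ) (hp : 0 < p)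
    (h : ∀ M : ℕ, 0 < M → q₀ ≤ p * M → ∀ S : Finset (ι →₀ ℕ),
      (∀ μ ∈ S, Finsupp.weight wt μ + q₀ ≤ p * M) → S.card ≤ d * (n + M - 1).choose n) :
    p ^ n ≤ d * ∏ j, wt j := by
  -- the inequality for every large `M`
  have key : ∀ M : ℕ, 0 < M → q₀ ≤ p * M →
      (p * M - q₀) ^ n ≤ d * (∏ j, wt j) * (n + M) ^ n := by
    intro M hM hq
    obtain ⟨S, hS1, hS2⟩ := asym_card wt hwt (p * M - q₀)
    have h1 : S.card ≤ d * (n + M - 1).choose n := by
      refine h M hM hq S (fun μ hμ => ?_)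
      have := hS1 μ hμ
      omega
    rw [hι] at hS2
    have h2 : (p * M - q₀) ^ n ≤ n.factorial * (n + (p * M - q₀)).choose n := by
      rw [← Nat.descFactorial_eq_factorial_mul_choose]
      refine le_trans ?_ (Nat.pow_sub_le_descFactorial _ _)
      refine Nat.pow_le_pow_left ?_ _
      omega
    have h3 : n.factorial * (n + M - 1).choose n ≤ (n + M) ^ n := by
      rw [← Nat.descFactorial_eq_factorial_mul_choose]
      refine le_trans (Nat.descFactorial_le_pow _ _) ?_
      refine Nat.pow_le_pow_left ?_ _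
      omega
    calc (p * M - q₀) ^ n ≤ n.factorial * (n + (p * M - q₀)).choose n := h2
      _ ≤ n.factorial * (S.card * ∏ j, wt j) := Nat.mul_le_mul_left _ hS2
      _ ≤ n.factorial * (d * (n + M - 1).choose n * ∏ j, wt j) :=
          Nat.mul_le_mul_left _ (Nat.mul_le_mul_right _ h1)
      _ = d * (∏ j, wt j) * (n.factorial * (n + M - 1).choose n) := by ring
      _ ≤ d * (∏ j, wt j) * (n + M) ^ n := Nat.mul_le_mul_left _ h3
  -- the limit
  have hlim1 : Filter.Tendsto (fun M : ℕ => ((p : ℝ) - q₀ / (M : ℝ)) ^ n) Filter.atTop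
      (nhds (((p : ℝ) - 0) ^ n)) := by
    refine Filter.Tendsto.pow ?_ n
    exact Filter.Tendsto.sub tendsto_const_nhds (tendsto_const_div_atTop_nhds_zero_nat _)
  have hlim2 : Filter.Tendsto (fun M : ℕ => ((d * ∏ j, wt j : ℕ) : ℝ) * (1 + n / (M : ℝ)) ^ n)
      Filter.atTop (nhds (((d * ∏ j, wt j : ℕ) : ℝ) * ((1 : ℝ) + 0) ^ n)) := by
    refine Filter.Tendsto.const_mul _ (Filter.Tendsto.pow ?_ n)
    exact Filter.Tendsto.add tendsto_const_nhds (tendsto_const_div_atTop_nhds_zero_nat _)
  have hle : ∀ᶠ M : ℕ in Filter.atTop, ((p : ℝ) - q₀ / (M : ℝ)) ^ n ≤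
      ((d * ∏ j, wt j : ℕ) : ℝ) * (1 + n / (M : ℝ)) ^ n := by
    filter_upwards [Filter.eventually_ge_atTop (q₀ + 1)] with M hM
    have hM0 : 0 < M := by omega
    have hq : q₀ ≤ p * M := by nlinarith
    have hMR : (0 : ℝ) < M := by exact_mod_cast hM0
    have h1 := key M hM0 hq
    have h2 : (((p * M - q₀ : ℕ) : ℝ)) ^ n ≤ ((d * ∏ j, wt j : ℕ) : ℝ) * ((n : ℝ) + M) ^ n := by
      exact_mod_cast h1
    rw [Nat.cast_sub hq, Nat.cast_mul] at h2
    have h3 : ((p : ℝ) - q₀ / (M : ℝ)) ^ n = ((p : ℝ) * M - q₀) ^ n / (M : ℝ) ^ n := by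
      rw [← div_pow]
      congr 1
      field_simp
    have h4 : (1 + n / (M : ℝ)) ^ n = ((n : ℝ) + M) ^ n / (M : ℝ) ^ n := by
      rw [← div_pow]
      congr 1
      field_simp
      ring
    rw [h3, h4, ← mul_div_assoc]
    exact div_le_div_of_nonneg_right h2 (by positivity)
  have hfin := le_of_tendsto_of_tendsto hlim1 hlim2 hle
  simp only [sub_zero, add_zero, one_pow, mul_one] at hfin
  exact_mod_cast hfin

end Pool.Agent.HartE
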