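import Mathlib
import Pool.Agent.HartA.Basic

/-!
Polynomials of large weight.
-/

namespace Pool.Agent.HartE

open Pool.Agent.Hartshorne Pool.Agent.HartA MvPolynomial

/-- The ideal of the polynomials of weight at least `q`. -/
def Jw {ι : Type*} (wt : ι → ℕ) (q : ℕ) : Ideal (MvPolynomial ι ℂ) where
  carrier := {f | ∀ d : ι →₀ ℕ, Finsupp.weight wt d < q → coeff d f = 0}
  zero_mem' := fun d _ => coeff_zero d
  add_mem' := by
    intro f g hf hg d hd
    rw [coeff_add, hf d hd, hg d hd, add_zero]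
  smul_mem' := by
    classical
    intro f g hg d hd
    rw [smul_eq_mul, coeff_mul]
    refine Finset.sum_eq_zero (fun p hp => ?_)
    rw [Finset.HasAntidiagonal.mem_antidiagonal] at hp
    have h1 : Finsupp.weight wt p.2 ≤ Finsupp.weight wt d := by
      rw [← hp, map_add]
      exact Nat.le_add_left _ _
    rw [hg p.2 (lt_of_le_of_lt h1 hd), mul_zero]

lemma mem_Jw {ι : Type*} {wt : ι → ℕ} {q : ℕ} {f : MvPolynomial ι ℂ} :
    f ∈ Jw wt q ↔ ∀ d : ι →₀ ℕ, Finsupp.weight wt d < q → coeff d f = 0 := Iff.rfl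

lemma Jw_anti {ι : Type*} (wt : ι → ℕ) {q q' : ℕ} (h : q ≤ q') : Jw wt q' ≤ Jw wt q :=
  fun _ hf d hd => hf d (lt_of_lt_of_le hd h)

end Pool.Agent.HartE
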