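import Mathlib
import Pool.Agent.HartE.Defs
import Pool.Agent.Hartshorne.Transport

/-!
The count of the monomials of small weight against the powers of the forms.
-/

namespace Pool.Agent.HartE

open Pool.Agent.Hartshorne Pool.Agent.HartA MvPolynomial

set_option linter.unusedSectionVars false

/-! ### weights -/

lemma count_mul_mem {ι : Type*} {wt : ι → ℕ} {q q' : ℕ} {f g : MvPolynomial ι ℂ} (hf : f ∈ Jw wt q)
    (hg : g ∈ Jw wt q') : f * g ∈ Jw wt (q + q') := by
  classical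
  intro d hd
  rw [coeff_mul]
  refine Finset.sum_eq_zero (fun x hx => ?_)
  rw [Finset.HasAntidiagonal.mem_antidiagonal] at hx
  have h1 : Finsupp.weight wt x.1 + Finsupp.weight wt x.2 = Finsupp.weight wt d := by
    rw [← hx, map_add]
  rcases lt_or_ge (Finsupp.weight wt x.1) q with h2 | h2
  · rw [hf x.1 h2, zero_mul]
  · rw [hg x.2 (by omega), mul_zero]

lemma count_pow_mem {ι : Type*} {wt : ι → ℕ} {q : ℕ} {f : MvPolynomial ι ℂ} (hf : f ∈ Jw wt q) (k : ℕ) :
    f ^ k ∈ Jw wt (k * q) := by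
  induction k with
  | zero =>
    intro d hd
    rw [zero_mul] at hd
    exact absurd hd (Nat.not_lt_zero _)
  | succ k ih =>
    rw [pow_succ, Nat.succ_mul]
    exact count_mul_mem ih hf

/-- the lowest weight -/
lemma count_low {ι : Type*} {wt : ι → ℕ} {q : ℕ} {f : MvPolynomial ι ℂ} (hf : f ∉ Jw wt q) :
    ∃ w : ℕ, w < q ∧ f ∈ Jw wt w ∧ f ∉ Jw wt (w + 1) := by
  classical
  have hex : ∃ k, f ∉ Jw wt k := ⟨q, hf⟩
  have h1 : f ∉ Jw wt (Nat.find hex) := Nat.find_spec hex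
  have h2 : Nat.find hex ≤ q := Nat.find_min' hex hf
  have h3 : Nat.find hex ≠ 0 := by
    intro h0
    apply h1
    rw [h0]
    intro d hd
    exact absurd hd (Nat.not_lt_zero _)
  obtain ⟨w, hw⟩ := Nat.exists_eq_succ_of_ne_zero h3
  refine ⟨w, by omega, ?_, ?_⟩
  · by_contra h4
    have h5 := Nat.find_min hex (m := w) (by omega)
    exact h5 h4
  · rw [hw] at h1
    exact h1

lemma count_comp_ne {ι : Type*} {wt : ι → ℕ} {w : ℕ} {f : MvPolynomial ι ℂ} (h1 : f ∈ Jw wt w)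
    (h2 : f ∉ Jw wt (w + 1)) : weightedHomogeneousComponent wt w f ≠ 0 := by
  classical
  intro h0
  apply h2
  intro d hd
  rcases lt_or_ge (Finsupp.weight wt d) w with h3 | h3
  · exact h1 d h3
  · have h4 : Finsupp.weight wt d = w := by omega
    have h5 := congrArg (coeff d) h0
    rw [coeff_weightedHomogeneousComponent, if_pos h4, coeff_zero] at h5
    exact h5

lemma count_sub_comp {ι : Type*} {wt : ι → ℕ} {w : ℕ} {f : MvPolynomial ι ℂ} (h1 : f ∈ Jw wt w) :
    f - weightedHomogeneousComponent wt w f ∈ Jw wt (w + 1) := by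
  classical
  intro d hd
  rw [coeff_sub, coeff_weightedHomogeneousComponent]
  split_ifs with h
  · rw [sub_self]
  · rw [h1 d (by omega), sub_zero]

lemma count_comp_mem {ι : Type*} (wt : ι → ℕ) (w : ℕ) (f : MvPolynomial ι ℂ) :
    weightedHomogeneousComponent wt w f ∈ Jw wt w := by
  classical
  intro d hd
  rw [coeff_weightedHomogeneousComponent, if_neg (by omega)]

/-- the lowest weights add up -/
lemma count_mul_not_mem {ι : Type*} {wt : ι → ℕ} {w w' : ℕ} {f g : MvPolynomial ι ℂ} (hf : f ∈ Jw wt w)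
    (hf' : f ∉ Jw wt (w + 1)) (hg : g ∈ Jw wt w') (hg' : g ∉ Jw wt (w' + 1)) :
    f * g ∉ Jw wt (w + w' + 1) := by
  classical
  intro hmem
  have h0 : weightedHomogeneousComponent wt w f * weightedHomogeneousComponent wt w' g ≠ 0 :=
    mul_ne_zero (count_comp_ne hf hf') (count_comp_ne hg hg')
  apply h0
  have hhom : IsWeightedHomogeneous wt
      (weightedHomogeneousComponent wt w f * weightedHomogeneousComponent wt w' g) (w + w') :=
    (weightedHomogeneousComponent_isWeightedHomogeneous w f).mul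
      (weightedHomogeneousComponent_isWeightedHomogeneous w' g)
  have h1 : weightedHomogeneousComponent wt w f * weightedHomogeneousComponent wt w' g ∈
      Jw wt (w + w' + 1) := by
    have e1 : weightedHomogeneousComponent wt w f * weightedHomogeneousComponent wt w' g =
        f * g - ((f - weightedHomogeneousComponent wt w f) * g +
          weightedHomogeneousComponent wt w f * (g - weightedHomogeneousComponent wt w' g)) := by ring
    rw [e1]
    refine Submodule.sub_mem _ hmem (Submodule.add_mem _ ?_ ?_)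
    · have := count_mul_mem (count_sub_comp hf) hg
      rwa [show w + 1 + w' = w + w' + 1 by ring] at this
    · have := count_mul_mem (count_comp_mem wt w f) (count_sub_comp hg)
      rwa [show w + (w' + 1) = w + w' + 1 by ring] at this
  ext d
  rw [coeff_zero]
  by_contra hne
  have h2 := hhom hne
  exact hne (h1 d (by omega))

/-- a monomial of small weight has a nonzero image -/
lemma count_not_mem {ι : Type*} {wt : ι → ℕ} {q : ℕ} {g : MvPolynomial ι ℂ} (hg : g ≠ 0)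
    (hs : ∀ μ ∈ g.support, Finsupp.weight wt μ < q) : g ∉ Jw wt q := by
  intro hmem
  obtain ⟨μ, hμ⟩ := (support_nonempty.mpr hg)
  exact (mem_support_iff.mp hμ) (hmem μ (hs μ hμ))

/-! ### the span of the monomials in the forms -/

/-- the exponents -/
abbrev CntJ (n M d : ℕ) : Type :=
  Fin d × ((Finset.univ : Finset (Fin (n + 1))).finsuppAntidiag (M - 1))

lemma count_card {n M d : ℕ} (hM : 0 < M) : Fintype.card (CntJ n M d) = d * (n + M - 1).choose n := by
  show Fintype.card (Fin d × ((Finset.univ : Finset (Fin (n + 1))).finsuppAntidiag (M - 1))) = _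
  rw [Fintype.card_prod, Fintype.card_fin, Fintype.card_coe,
    Finset.card_finsuppAntidiag_nat_eq_choose, Finset.card_univ, Fintype.card_fin]
  congr 1
  rw [show n + 1 + (M - 1) - 1 = n + (M - 1) by omega, show n + M - 1 = n + (M - 1) by omega]
  rw [← Nat.choose_symm_add]

section

variable {R : Type*} [CommRing R] [Algebra ℂ R] {n : ℕ}

/-- the vectors -/
noncomputable def cntv (Φ : MvPolynomial (Fin (n + 1)) ℂ →ₐ[ℂ] R) (Z : R) (M d : ℕ) (j : CntJ n M d) : R :=
  Φ (monomial j.2.1 (1 : ℂ)) * Z ^ (j.1 : ℕ)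

lemma cnt_monomial (Φ : MvPolynomial (Fin (n + 1)) ℂ →ₐ[ℂ] R) (hs : Φ (X 0) = 1)
    (β : Fin (n + 1) →₀ ℕ) : Φ (monomial β (1 : ℂ)) = ∏ j : Fin n, Φ (X j.succ) ^ β j.succ := by
  have h1 : (monomial β (1 : ℂ) : MvPolynomial (Fin (n + 1)) ℂ) = ∏ i, X i ^ β i := by
    rw [monomial_eq, C_1, one_mul, Finsupp.prod_fintype _ _ (fun i => pow_zero _)]
  rw [h1, map_prod, Fin.prod_univ_succ, map_pow, hs, one_pow, one_mul]
  exact Finset.prod_congr rfl (fun j _ => map_pow _ _ _)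

lemma cnt_mem_monomial (Φ : MvPolynomial (Fin (n + 1)) ℂ →ₐ[ℂ] R) (hs : Φ (X 0) = 1) (Z : R) {M d : ℕ}
    (hM : 0 < M)
    (hbig : ∀ α : Fin n → ℕ, M ≤ ∑ j, α j → ∏ j : Fin n, Φ (X j.succ) ^ α j = 0) (i : Fin d)
    (β : Fin (n + 1) →₀ ℕ) :
    Φ (monomial β (1 : ℂ)) * Z ^ (i : ℕ) ∈ Submodule.span ℂ (Set.range (cntv Φ Z M d)) := by
  classical
  rw [cnt_monomial Φ hs]
  rcases le_or_gt M (∑ j : Fin n, β j.succ) with h | h
  · rw [hbig _ h, zero_mul]
    exact Submodule.zero_mem _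
  · -- the exponent with the degree `M - 1`
    let α : Fin (n + 1) →₀ ℕ :=
      Finsupp.equivFunOnFinite.symm (Fin.cons (M - 1 - ∑ j : Fin n, β j.succ) (fun j : Fin n => β j.succ))
    have hα0 : α 0 = M - 1 - ∑ j : Fin n, β j.succ := rfl
    have hαs : ∀ j : Fin n, α j.succ = β j.succ := fun j => rfl
    have hmem : α ∈ (Finset.univ : Finset (Fin (n + 1))).finsuppAntidiag (M - 1) := by
      rw [Finset.mem_finsuppAntidiag]
      refine ⟨?_, Finset.subset_univ _⟩
      rw [Fin.sum_univ_succ, hα0]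
      simp only [hαs]
      omega
    refine Submodule.subset_span ⟨(i, ⟨α, hmem⟩), ?_⟩
    show Φ (monomial α (1 : ℂ)) * Z ^ (i : ℕ) = _
    rw [cnt_monomial Φ hs]
    simp only [hαs]

lemma cnt_mem (Φ : MvPolynomial (Fin (n + 1)) ℂ →ₐ[ℂ] R) (hs : Φ (X 0) = 1) (Z : R) {M d : ℕ}
    (hM : 0 < M)
    (hbig : ∀ α : Fin n → ℕ, M ≤ ∑ j, α j → ∏ j : Fin n, Φ (X j.succ) ^ α j = 0) (i : Fin d)
    (b : MvPolynomial (Fin (n + 1)) ℂ) :
    Φ b * Z ^ (i : ℕ) ∈ Submodule.span ℂ (Set.range (cntv Φ Z M d)) := by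
  classical
  have h1 : b = ∑ β ∈ b.support, (coeff β b) • monomial β (1 : ℂ) := by
    conv_lhs => rw [b.as_sum]
    refine Finset.sum_congr rfl (fun β _ => ?_)
    rw [smul_monomial, smul_eq_mul, mul_one]
  rw [h1, map_sum, Finset.sum_mul]
  refine Submodule.sum_mem _ (fun β _ => ?_)
  rw [map_smul, smul_mul_assoc]
  exact Submodule.smul_mem _ _ (cnt_mem_monomial Φ hs Z hM hbig i β)

end

/-- the count, abstract -/
theorem count_core {n d : ℕ} {A : Type*} [CommRing A] [Algebra ℂ A] {ι : Type} [Fintype ι] [DecidableEq ι]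
    (wt : ι → ℕ) (p q₀ M : ℕ) (hM : 0 < M)
    (Φ : MvPolynomial (Fin (n + 1)) ℂ →ₐ[ℂ] MvPolynomial ι ℂ ⧸ Jw wt (p * M))
    (θ : A →ₐ[ℂ] MvPolynomial ι ℂ ⧸ Jw wt (p * M)) (Z D : MvPolynomial ι ℂ ⧸ Jw wt (p * M))
    (hE : ∀ a : A, ∃ b : Fin d → MvPolynomial (Fin (n + 1)) ℂ, D * θ a = ∑ i, Φ (b i) * Z ^ (i : ℕ))
    (hs : Φ (X 0) = 1) {τ : ι → A}
    (hτ : ∀ j, θ (τ j) = Ideal.Quotient.mk (Jw wt (p * M)) (X j))
    (hH : ∀ j : Fin n, ∃ f ∈ Jw wt p, Φ (X j.succ) = Ideal.Quotient.mk (Jw wt (p * M)) f)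
    (hD : ∀ f : MvPolynomial ι ℂ, D = Ideal.Quotient.mk (Jw wt (p * M)) f → f ∉ Jw wt q₀)
    (S : Finset (ι →₀ ℕ)) (hS : ∀ μ ∈ S, Finsupp.weight wt μ + q₀ ≤ p * M) :
    S.card ≤ d * (n + M - 1).choose n := by
  classical
  -- large powers of the forms
  have hbig : ∀ α : Fin n → ℕ, M ≤ ∑ j, α j → ∏ j : Fin n, Φ (X j.succ) ^ α j = 0 := by
    intro α hα
    choose f hf hfe using hH
    have h1 : ∏ j : Fin n, Φ (X j.succ) ^ α j =
        Ideal.Quotient.mk (Jw wt (p * M)) (∏ j : Fin n, f j ^ α j) := by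
      rw [map_prod]
      refine Finset.prod_congr rfl (fun j _ => ?_)
      rw [hfe, map_pow]
    have h2 : ∀ s : Finset (Fin n), ∏ j ∈ s, f j ^ α j ∈ Jw wt ((∑ j ∈ s, α j) * p) := by
      intro s
      induction s using Finset.induction_on with
      | empty =>
        intro d hd
        rw [Finset.sum_empty, zero_mul] at hd
        exact absurd hd (Nat.not_lt_zero _)
      | insert a s ha ih =>
        rw [Finset.prod_insert ha, Finset.sum_insert ha, add_mul]
        exact count_mul_mem (count_pow_mem (hf a) (α a)) ih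
    rw [h1, Ideal.Quotient.eq_zero_iff_mem]
    refine Jw_anti wt ?_ (h2 Finset.univ)
    rw [mul_comm p M]
    exact Nat.mul_le_mul_right p hα
  -- a representative of `D`
  obtain ⟨f, hf⟩ : ∃ f : MvPolynomial ι ℂ, D = Ideal.Quotient.mk (Jw wt (p * M)) f := by
    obtain ⟨f, hf⟩ := Ideal.Quotient.mk_surjective D
    exact ⟨f, hf.symm⟩
  have hfq : f ∉ Jw wt q₀ := hD f hf
  -- the span
  let V : Submodule ℂ (MvPolynomial ι ℂ ⧸ Jw wt (p * M)) := Submodule.span ℂ (Set.range (cntv Φ Z M d))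
  have hVf : Module.Finite ℂ V := Module.Finite.span_of_finite ℂ (Set.finite_range _)
  have hV : Module.finrank ℂ V ≤ d * (n + M - 1).choose n := by
    rw [← count_card hM]
    exact finrank_range_le_card _
  have hmemV : ∀ a : A, D * θ a ∈ V := by
    intro a
    obtain ⟨b, hb⟩ := hE a
    rw [hb]
    exact Submodule.sum_mem _ (fun i _ => cnt_mem Φ hs Z hM hbig i (b i))
  -- the monomials
  have hθm : ∀ μ : ι →₀ ℕ, θ (∏ j, τ j ^ μ j) = Ideal.Quotient.mk (Jw wt (p * M)) (monomial μ (1 : ℂ)) := by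
    intro μ
    rw [map_prod, monomial_eq, C_1, one_mul, Finsupp.prod_fintype _ _ (fun i => pow_zero _), map_prod]
    refine Finset.prod_congr rfl (fun j _ => ?_)
    rw [map_pow, hτ, map_pow]
  have hmem : ∀ μ : S, Ideal.Quotient.mk (Jw wt (p * M)) (f * monomial μ.1 (1 : ℂ)) ∈ V := by
    intro μ
    rw [map_mul, ← hf, ← hθm]
    exact hmemV _
  let v : S → V := fun μ => ⟨_, hmem μ⟩
  have hli : LinearIndependent ℂ v := by
    rw [Fintype.linearIndependent_iff]
    intro a ha μ₀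
    have h1 := congrArg Subtype.val ha
    rw [Submodule.coe_sum, Submodule.coe_zero] at h1
    let g : MvPolynomial ι ℂ := ∑ μ : S, monomial μ.1 (a μ)
    have h2 : Ideal.Quotient.mk (Jw wt (p * M)) (f * g) = 0 := by
      rw [← h1]
      show Ideal.Quotient.mk (Jw wt (p * M)) (f * ∑ μ : S, monomial μ.1 (a μ)) = _
      rw [Finset.mul_sum, map_sum]
      refine Finset.sum_congr rfl (fun μ _ => ?_)
      show _ = a μ • Ideal.Quotient.mk (Jw wt (p * M)) (f * monomial μ.1 (1 : ℂ))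
      rw [← Ideal.Quotient.mkₐ_eq_mk ℂ, ← map_smul]
      congr 1
      rw [← mul_smul_comm, smul_monomial, smul_eq_mul, mul_one]
    rw [Ideal.Quotient.eq_zero_iff_mem] at h2
    have hcoef : ∀ μ : S, coeff μ.1 g = a μ := by
      intro μ
      show coeff μ.1 (∑ μ' : S, monomial μ'.1 (a μ')) = a μ
      rw [coeff_sum, Finset.sum_eq_single μ]
      · rw [coeff_monomial, if_pos rfl]
      · intro μ' _ hne
        rw [coeff_monomial, if_neg (fun h => hne (Subtype.ext h))]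
      · intro h
        exact absurd (Finset.mem_univ _) h
    have hsupp : ∀ μ ∈ g.support, μ ∈ S := by
      intro μ hμ
      by_contra hn
      rw [mem_support_iff] at hμ
      apply hμ
      show coeff μ (∑ μ' : S, monomial μ'.1 (a μ')) = 0
      rw [coeff_sum]
      refine Finset.sum_eq_zero (fun μ' _ => ?_)
      rw [coeff_monomial, if_neg (fun h : μ'.1 = μ => hn (h ▸ μ'.2))]
    by_contra hne
    have hg : g ≠ 0 := by
      intro h0
      apply hne
      rw [← hcoef μ₀, h0, coeff_zero]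
    obtain ⟨w, hwq, hw1, hw2⟩ := count_low hfq
    have hg' : g ∉ Jw wt (p * M - q₀ + 1) := by
      refine count_not_mem hg (fun μ hμ => ?_)
      have := hS μ (hsupp μ hμ)
      omega
    obtain ⟨w', hwq', hw1', hw2'⟩ := count_low hg'
    refine count_mul_not_mem hw1 hw2 hw1' hw2' (Jw_anti wt ?_ h2)
    have h3 := hS μ₀.1 μ₀.2
    omega
  have h3 := hli.fintype_card_le_finrank
  rw [Fintype.card_coe] at h3
  exact h3.trans hV

variable {ρ : Type} [Fintype ρ] [DecidableEq ρ] {I : Ideal (MvPolynomial ρ ℂ)}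

/-- **the count** -/
theorem count {n d : ℕ} (lam : (ρ → ℂ) →ₗ[ℂ] (Fin (n + 1) → ℂ)) (z : MvPolynomial ρ ℂ)
    (E : MvPolynomial (Fin (n + 1)) ℂ)
    (hE : ∀ a : MvPolynomial ρ ℂ, ∃ b : Fin d → MvPolynomial (Fin (n + 1)) ℂ,
        lsub lam E * a - ∑ i, lsub lam (b i) * z ^ (i : ℕ) ∈ I)
    {ι : Type} [Fintype ι] [DecidableEq ι] (wt : ι → ℕ) (p q₀ M : ℕ) (hM : 0 < M)
    (θ : MvPolynomial ρ ℂ →ₐ[ℂ] MvPolynomial ι ℂ ⧸ Jw wt (p * M)) (hθI : ∀ g ∈ I, θ g = 0)
    (hs : θ (lsub lam (X 0)) = 1) {τ : ι → MvPolynomial ρ ℂ}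
    (hτ : ∀ j, θ (τ j) = Ideal.Quotient.mk (Jw wt (p * M)) (X j))
    (hH : ∀ j : Fin n, ∃ f ∈ Jw wt p,
      θ (lsub lam (X j.succ)) = Ideal.Quotient.mk (Jw wt (p * M)) f)
    (hD : ∀ f : MvPolynomial ι ℂ, θ (lsub lam E) = Ideal.Quotient.mk (Jw wt (p * M)) f →
      f ∉ Jw wt q₀) (S : Finset (ι →₀ ℕ))
    (hS : ∀ μ ∈ S, Finsupp.weight wt μ + q₀ ≤ p * M) :
    S.card ≤ d * (n + M - 1).choose n := by
  refine count_core (A := MvPolynomial ρ ℂ) wt p q₀ M hM (θ.comp (lsub lam)) θ (θ z) (θ (lsub lam E)) (fun a => ?_)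
    hs hτ hH hD S hS
  obtain ⟨b, hb⟩ := hE a
  refine ⟨b, ?_⟩
  have h1 := hθI _ hb
  rw [map_sub, map_mul, sub_eq_zero, map_sum] at h1
  rw [h1]
  refine Finset.sum_congr rfl (fun i _ => ?_)
  rw [map_mul, map_pow]
  rfl

end Pool.Agent.HartE
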