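import Mathlib
import Pool.Agent.HartD.FinalD
import Pool.Agent.HartE.Defs

/-!
A form outside the ideal has bounded order at a smooth point: the argument by Hilbert functions.
-/

set_option autoImplicit false
set_option linter.unusedSectionVars false

namespace Pool.Agent.HartE

open Pool.Agent.Hartshorne Pool.Agent.HartA MvPolynomial

variable {ρ : Type} [Fintype ρ] [DecidableEq ρ] {I : Ideal (MvPolynomial ρ ℂ)} {c : ℕ}

/-- The Hilbert function cannot grow by a full binomial coefficient at every step. -/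
lemma lemD_asym {n : ℕ} {δ : ℝ} (h : ℕ → ℕ)
    (hdeg : Filter.Tendsto (fun k : ℕ => (h k : ℝ) / (k : ℝ) ^ n) Filter.atTop (nhds δ))
    (k₀ : ℕ) : ∃ j : ℕ, h (j + k₀) < (n + 1 + (j + k₀) - 1).choose (j + k₀) + h j := by
  by_contra hcon
  push Not at hcon
  have hfact : (0 : ℝ) < n.factorial := by exact_mod_cast Nat.factorial_pos n
  have h1 : Filter.Tendsto (fun j : ℕ => (h (j + k₀) : ℝ) / ((j + k₀ : ℕ) : ℝ) ^ n)
      Filter.atTop (nhds δ) := hdeg.comp (Filter.tendsto_add_atTop_nat k₀)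
  have h2 : Filter.Tendsto (fun j : ℕ => (h j : ℝ) / (j : ℝ) ^ n *
      ((j : ℝ) / ((j : ℝ) + (k₀ : ℝ))) ^ n) Filter.atTop (nhds (δ * 1 ^ n)) :=
    hdeg.mul ((tendsto_natCast_div_add_atTop (k₀ : ℝ)).pow n)
  have h3 : Filter.Tendsto (fun j : ℕ => (h j : ℝ) / ((j + k₀ : ℕ) : ℝ) ^ n)
      Filter.atTop (nhds δ) := by
    rw [one_pow, mul_one] at h2
    refine h2.congr' ?_
    filter_upwards [Filter.eventually_gt_atTop 0] with j hj
    have hj' : (0 : ℝ) < j := by exact_mod_cast hj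
    rw [div_pow, Nat.cast_add]
    field_simp
  have h4 := h1.sub h3
  rw [sub_self] at h4
  have h5 : (1 : ℝ) / n.factorial ≤ 0 := by
    refine ge_of_tendsto h4 ?_
    filter_upwards [Filter.eventually_gt_atTop 0] with j hj
    have hj' : (0 : ℝ) < ((j + k₀ : ℕ) : ℝ) := by
      have : 0 < j + k₀ := by omega
      exact_mod_cast this
    rw [← sub_div, le_div_iff₀ (pow_pos hj' n)]
    have h6 := hcon j
    have h7 : n + 1 + (j + k₀) - 1 = n + (j + k₀) := by omega
    have h8 : (n + (j + k₀)).choose (j + k₀) = (n + (j + k₀)).choose n := by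
      rw [← Nat.choose_symm_add]
    rw [h7, h8] at h6
    have h9 := Nat.pow_le_choose (α := ℝ) n (n + (j + k₀))
    have h10 : n + (j + k₀) + 1 - n = (j + k₀) + 1 := by omega
    rw [h10] at h9
    have h11 : (((n + (j + k₀)).choose n : ℕ) : ℝ) + (h j : ℝ) ≤ (h (j + k₀) : ℝ) := by
      exact_mod_cast h6
    have h12 : ((j + k₀ : ℕ) : ℝ) ^ n ≤ (((j + k₀) + 1 : ℕ) : ℝ) ^ n := by
      refine pow_le_pow_left₀ hj'.le ?_ n
      push_cast
      linarith
    have h13 : ((j + k₀ : ℕ) : ℝ) ^ n / n.factorial ≤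
        (((j + k₀) + 1 : ℕ) : ℝ) ^ n / n.factorial :=
      div_le_div_of_nonneg_right h12 hfact.le
    have h14 : 1 / (n.factorial : ℝ) * ((j + k₀ : ℕ) : ℝ) ^ n =
        ((j + k₀ : ℕ) : ℝ) ^ n / n.factorial := by ring
    rw [h14]
    linarith
  have h6 : (0 : ℝ) < 1 / n.factorial := by positivity
  linarith

/-- The dimension count. -/
lemma lemD_count (hI : I.IsPrime) {n : ℕ} {ι : Type} [Fintype ι] [DecidableEq ι]
    (hι : Fintype.card ι = n) (wt : ι → ℕ)
    {s : MvPolynomial ρ ℂ} (hs : s.IsHomogeneous 1) {τ : ι → MvPolynomial ρ ℂ}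
    (hτ : ∀ j, (τ j).IsHomogeneous 1) {D : MvPolynomial ρ ℂ} {k₀ : ℕ}
    (hD : D.IsHomogeneous k₀) (hDI : D ∉ I) (j q : ℕ) (hq : (∑ i, wt i) * (j + k₀) < q)
    (θ : MvPolynomial ρ ℂ →ₐ[ℂ] MvPolynomial ι ℂ ⧸ Jw wt q) (hθI : ∀ g ∈ I, θ g = 0)
    (hθs : θ s = 1) (hθτ : ∀ j, θ (τ j) = Ideal.Quotient.mk (Jw wt q) (X j)) (hθD : θ D = 0) :
    (n + 1 + (j + k₀) - 1).choose (j + k₀) + Module.finrank ℂ (grP I j) ≤
      Module.finrank ℂ (grP I (j + k₀)) := by
  classical
  obtain ⟨k, hk⟩ : ∃ k, k = j + k₀ := ⟨_, rfl⟩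
  rw [← hk] at hq ⊢
  obtain ⟨Θ, hΘ⟩ : ∃ Θ : MvPolynomial ρ ℂ ⧸ I →ₐ[ℂ] MvPolynomial ι ℂ ⧸ Jw wt q,
      ∀ g, Θ (Ideal.Quotient.mk I g) = θ g :=
    ⟨Ideal.Quotient.liftₐ I θ hθI, fun g => rfl⟩
  obtain ⟨L, hL⟩ : ∃ L : grP I k →ₗ[ℂ] MvPolynomial ι ℂ ⧸ Jw wt q,
      ∀ x : grP I k, L x = Θ (x : MvPolynomial ρ ℂ ⧸ I) :=
    ⟨Θ.toLinearMap.comp (grP I k).subtype, fun x => rfl⟩
  rw [← LinearMap.finrank_range_add_finrank_ker L]
  refine Nat.add_le_add ?_ ?_
  · -- the image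
    set J := ((Finset.univ : Finset (Option ι)).finsuppAntidiag k) with hJ
    have hJc : Fintype.card J = (n + 1 + k - 1).choose k := by
      show Fintype.card ((Finset.univ : Finset (Option ι)).finsuppAntidiag k) = _
      rw [Fintype.card_coe, Finset.card_finsuppAntidiag_nat_eq_choose, Finset.card_univ,
        Fintype.card_option, hι]
    have hsum : ∀ μ : J, μ.1 none + ∑ i, μ.1 (some i) = k := by
      intro μ
      have h1 : (μ.1 : Option ι →₀ ℕ) ∈ (Finset.univ : Finset (Option ι)).finsuppAntidiag k := μ.2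
      rw [Finset.mem_finsuppAntidiag] at h1
      rw [← h1.1, Fintype.sum_option]
    have hmem : ∀ μ : J, (s ^ (μ.1 none) * ∏ i, τ i ^ (μ.1 (some i))).IsHomogeneous k := by
      intro μ
      have h1 : (∏ i, τ i ^ (μ.1 (some i))).IsHomogeneous (∑ i, 1 * μ.1 (some i)) :=
        IsHomogeneous.prod _ _ _ fun i _ => (hτ i).pow _
      have h2 := (hs.pow (μ.1 none)).mul h1
      have h3 : 1 * μ.1 none + ∑ i, 1 * μ.1 (some i) = k := by
        simp only [one_mul]
        exact hsum μ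
      rwa [h3] at h2
    obtain ⟨G, hG⟩ : ∃ G : J → LinearMap.range L, ∀ μ, ((G μ : LinearMap.range L) :
        MvPolynomial ι ℂ ⧸ Jw wt q) = Ideal.Quotient.mk (Jw wt q)
          (monomial (μ.1.some) (1 : ℂ)) := by
      refine ⟨fun μ => ⟨Ideal.Quotient.mk (Jw wt q) (monomial (μ.1.some) (1 : ℂ)), ?_⟩,
        fun μ => rfl⟩
      refine ⟨⟨Ideal.Quotient.mk I (s ^ (μ.1 none) * ∏ i, τ i ^ (μ.1 (some i))),
        mem_grP (hmem μ)⟩, ?_⟩
      rw [hL]
      show Θ (Ideal.Quotient.mk I (s ^ (μ.1 none) * ∏ i, τ i ^ (μ.1 (some i)))) = _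
      rw [hΘ, map_mul, map_pow, hθs, one_pow, one_mul, map_prod, monomial_eq, map_mul, map_one,
        map_one, one_mul, Finsupp.prod_fintype _ _ (fun i => pow_zero _), map_prod]
      refine Finset.prod_congr rfl fun i _ => ?_
      rw [map_pow, map_pow, hθτ]
      rfl
    have hli : LinearIndependent ℂ G := by
      rw [Fintype.linearIndependent_iff]
      intro a ha μ₀
      have h1 := congrArg Subtype.val ha
      rw [Submodule.coe_sum, Submodule.coe_zero] at h1
      have h2 : ∑ μ : J, C (a μ) * monomial (μ.1.some) (1 : ℂ) ∈ Jw wt q := by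
        rw [← Ideal.Quotient.eq_zero_iff_mem, map_sum, ← h1]
        refine Finset.sum_congr rfl fun μ _ => ?_
        rw [Submodule.coe_smul, hG, ← smul_eq_C_mul]
        rfl
      have h3 : Finsupp.weight wt (μ₀.1.some) < q := by
        refine lt_of_le_of_lt ?_ hq
        rw [Finsupp.weight_apply, Finsupp.sum_fintype _ _ (fun i => by simp), Finset.sum_mul]
        refine Finset.sum_le_sum fun i _ => ?_
        rw [smul_eq_mul, mul_comm]
        refine Nat.mul_le_mul_left _ ?_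
        have h4 : μ₀.1 (some i) ≤ ∑ i, μ₀.1 (some i) :=
          Finset.single_le_sum (f := fun i => μ₀.1 (some i)) (fun _ _ => Nat.zero_le _)
            (Finset.mem_univ i)
        have h5 := hsum μ₀
        show μ₀.1 (some i) ≤ k
        omega
      have h4 := mem_Jw.mp h2 _ h3
      simp only [coeff_sum, coeff_C_mul, coeff_monomial] at h4
      rw [Finset.sum_eq_single μ₀] at h4
      · simpa using h4
      · intro μ _ hμ
        rw [if_neg, mul_zero]
        intro h5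
        apply hμ
        apply Subtype.ext
        have h6 : ∀ i, μ.1 (some i) = μ₀.1 (some i) := fun i => DFunLike.congr_fun h5 i
        ext o
        rcases o with _ | i
        · have h7 := hsum μ
          have h8 := hsum μ₀
          have h9 : ∑ i, μ.1 (some i) = ∑ i, μ₀.1 (some i) :=
            Finset.sum_congr rfl fun i _ => h6 i
          omega
        · exact h6 i
      · intro h
        exact absurd (Finset.mem_univ _) h
    rw [← hJc]
    exact hli.fintype_card_le_finrank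
  · -- the kernel
    have hmul : ∀ x : grP I j, Ideal.Quotient.mk I D * (x : MvPolynomial ρ ℂ ⧸ I) ∈ grP I k := by
      rintro ⟨x, p, hp, rfl⟩
      refine ⟨D * p, ?_, ?_⟩
      · have h1 := hD.mul hp
        rw [hk, add_comm]
        exact h1
      · exact map_mul (Ideal.Quotient.mk I) D p
    obtain ⟨m1, hm1⟩ : ∃ m1 : grP I j →ₗ[ℂ] grP I k, ∀ x : grP I j,
        ((m1 x : grP I k) : MvPolynomial ρ ℂ ⧸ I) = Ideal.Quotient.mk I D * x :=
      ⟨LinearMap.codRestrict (grP I k)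
        ((LinearMap.mulLeft ℂ (Ideal.Quotient.mk I D)).comp (grP I j).subtype) hmul,
        fun x => rfl⟩
    have hker : ∀ x, m1 x ∈ LinearMap.ker L := by
      intro x
      rw [LinearMap.mem_ker, hL, hm1, map_mul, hΘ, hθD, zero_mul]
    refine LinearMap.finrank_le_finrank_of_injective
      (f := LinearMap.codRestrict (LinearMap.ker L) m1 hker) ?_
    intro x y hxy
    have h1 := congrArg (fun z : LinearMap.ker L => ((z : grP I k) : MvPolynomial ρ ℂ ⧸ I)) hxy
    simp only [LinearMap.codRestrict_apply] at h1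
    rw [hm1, hm1] at h1
    have := hI
    have h2 : Ideal.Quotient.mk I D ≠ 0 := by
      intro h
      exact hDI (Ideal.Quotient.eq_zero_iff_mem.mp h)
    exact Subtype.ext (mul_left_cancel₀ h2 h1)

/-- **Lemma D**: a form outside the ideal has bounded order along the local parametrizations. -/
theorem exists_order {n : ℕ} (hI : I.IsPrime) {δ : ℕ}
    (hdeg : Filter.Tendsto (fun k : ℕ => (Module.finrank ℂ (grP I k) : ℝ) / (k : ℝ) ^ n)
      Filter.atTop (nhds ((δ : ℝ) / n.factorial)))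
    {ι : Type} [Fintype ι] [DecidableEq ι] (hι : Fintype.card ι = n) (wt : ι → ℕ)
    {s : MvPolynomial ρ ℂ} (hs : s.IsHomogeneous 1) {τ : ι → MvPolynomial ρ ℂ}
    (hτ : ∀ j, (τ j).IsHomogeneous 1) {D : MvPolynomial ρ ℂ} {k₀ : ℕ}
    (hD : D.IsHomogeneous k₀) (hDI : D ∉ I) :
    ∃ q₀ : ℕ, ∀ θ : MvPolynomial ρ ℂ →ₐ[ℂ] MvPolynomial ι ℂ ⧸ Jw wt q₀, (∀ g ∈ I, θ g = 0) →
      θ s = 1 → (∀ j, θ (τ j) = Ideal.Quotient.mk (Jw wt q₀) (X j)) → θ D ≠ 0 := by
  obtain ⟨j, hj⟩ := lemD_asym (fun k => Module.finrank ℂ (grP I k)) hdeg k₀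
  refine ⟨(∑ i, wt i) * (j + k₀) + 1, fun θ h1 h2 h3 h4 => ?_⟩
  have h5 := lemD_count hI hι wt hs hτ hD hDI j _ (Nat.lt_succ_self _) θ h1 h2 h3 h4
  omega

end Pool.Agent.HartE
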