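import Mathlib
import Pool.Agent.HartD.FinalD
import Pool.Agent.HartA.Basic
import Pool.Agent.HartE.Defs

/-!
The generic rank of the coordinate ring over a polynomial ring in linear forms.
-/

namespace Pool.Agent.HartE

open Pool.Agent.Hartshorne Pool.Agent.HartA MvPolynomial

set_option linter.unusedSectionVars false

section Rank

variable {ρ : Type} [Fintype ρ] [DecidableEq ρ] {I : Ideal (MvPolynomial ρ ℂ)}

/-- The projection data for given linear forms without common zero. -/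
theorem rank_pdata {n : ℕ} (hI : I.IsPrime) (hhom : HI I)
    (hdim : ringKrullDim (MvPolynomial ρ ℂ ⧸ I) = ((n : ℕ) : WithBot ℕ∞))
    (lam : (ρ → ℂ) →ₗ[ℂ] (Fin n → ℂ))
    (hlam : ∀ p : ρ → ℂ, lam p = 0 → (∀ h ∈ I, eval p h = 0) → p = 0) :
    ∃ (z : MvPolynomial ρ ℂ) (f : Polynomial (MvPolynomial (Fin n) ℂ))
      (D : MvPolynomial (Fin n) ℂ) (g : ρ → Polynomial (MvPolynomial (Fin n) ℂ)),
      PData I lam z f D g := by
  classical
  have hinj := noe_injective I hhom lam hlam hdim.ge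
  have hint := noe_integral I hhom lam hlam
  have hdom : IsDomain (MvPolynomial ρ ℂ ⧸ I) := Ideal.Quotient.isDomain I
  let halg : Algebra (MvPolynomial (Fin n) ℂ) (MvPolynomial ρ ℂ ⧸ I) :=
    (noe I lam).toRingHom.toAlgebra
  have hmap : ∀ a, algebraMap (MvPolynomial (Fin n) ℂ) (MvPolynomial ρ ℂ ⧸ I) a =
      Ideal.Quotient.mk I (lsub lam a) := fun a => rfl
  have hst : IsScalarTower ℂ (MvPolynomial (Fin n) ℂ) (MvPolynomial ρ ℂ ⧸ I) := by
    refine IsScalarTower.of_algebraMap_eq (fun t => ?_)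
    exact ((noe I lam).commutes t).symm
  have hii : Algebra.IsIntegral (MvPolynomial (Fin n) ℂ) (MvPolynomial ρ ℂ ⧸ I) := ⟨hint⟩
  have hpev : ∀ (w : MvPolynomial ρ ℂ) (h : Polynomial (MvPolynomial (Fin n) ℂ)),
      Polynomial.aeval (Ideal.Quotient.mk I w) h = Ideal.Quotient.mk I (pev lam w h) := by
    intro w h
    rw [pev, Polynomial.coe_eval₂RingHom, Polynomial.hom_eval₂]
    rfl
  have hadj : Algebra.adjoin ℂ (Set.range fun b => Ideal.Quotient.mk I (X b : MvPolynomial ρ ℂ)) =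
      ⊤ := by
    rw [eq_top_iff]
    intro w _
    obtain ⟨w, rfl⟩ := Ideal.Quotient.mkₐ_surjective ℂ I w
    have h1 : Algebra.adjoin ℂ (Set.range (X : ρ → MvPolynomial ρ ℂ)) ≤
        (Algebra.adjoin ℂ (Set.range fun b =>
          Ideal.Quotient.mk I (X b : MvPolynomial ρ ℂ))).comap (Ideal.Quotient.mkₐ ℂ I) := by
      rw [Algebra.adjoin_le_iff]
      rintro _ ⟨b, rfl⟩
      exact Algebra.subset_adjoin ⟨b, rfl⟩
    rw [adjoin_range_X] at h1
    exact h1 (Algebra.mem_top (x := w))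
  obtain ⟨a, D, hD, hg⟩ := exists_prim_ring (B := MvPolynomial (Fin n) ℂ) hinj
    (fun b => Ideal.Quotient.mk I (X b : MvPolynomial ρ ℂ)) hadj
  choose g hg using hg
  set z : MvPolynomial ρ ℂ := ∑ b, C (a b) * X b with hz
  have hzq : ∑ b, a b • Ideal.Quotient.mk I (X b : MvPolynomial ρ ℂ) =
      Ideal.Quotient.mk I z := by
    rw [hz, map_sum]
    refine Finset.sum_congr rfl (fun b _ => ?_)
    rw [← smul_eq_C_mul]
    rfl
  have hzh : z.IsHomogeneous 1 := IsHomogeneous.sum _ _ _ (fun b _ => isHomogeneous_C_mul_X _ _)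
  have htf : Module.IsTorsionFree (MvPolynomial (Fin n) ℂ) (MvPolynomial ρ ℂ ⧸ I) := by
    have hf : FaithfulSMul (MvPolynomial (Fin n) ℂ) (MvPolynomial ρ ℂ ⧸ I) :=
      (faithfulSMul_iff_algebraMap_injective _ _).mpr hinj
    infer_instance
  have hzi : IsIntegral (MvPolynomial (Fin n) ℂ) (Ideal.Quotient.mk I z) := hii.isIntegral _
  set f := minpoly (MvPolynomial (Fin n) ℂ) (Ideal.Quotient.mk I z) with hf
  have hker : ∀ h, pev lam z h ∈ I ↔ f ∣ h := by
    intro h
    rw [hf, ← minpoly.isIntegrallyClosed_dvd_iff hzi, hpev, Ideal.Quotient.eq_zero_iff_mem]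
  have hfm : f.Monic := minpoly.monic hzi
  refine ⟨z, f, D, g, hzh, hfm, ?_, hker, hD, ?_, ?_⟩
  · -- homogeneity
    have h1 := hpoly_monic hfm
    have h2 : f ∣ hpoly f.natDegree f := by
      rw [← hker, pev_hpoly hzh]
      exact hhom _ ((hker f).mpr dvd_rfl) _
    have h3 : hpoly f.natDegree f = f :=
      (Polynomial.eq_of_monic_of_dvd_of_natDegree_le hfm h1.1 h2 h1.2.le)
    intro i hi
    have h4 := hpoly_coeff f.natDegree f i
    rw [h3, if_pos hi] at h4
    rw [h4]
    exact homogeneousComponent_isHomogeneous _ _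
  · intro b
    rw [← Ideal.Quotient.eq_zero_iff_mem, map_sub, map_mul, ← hpev, ← hzq, ← hg b, hmap, sub_self]
  · intro b
    obtain ⟨p, hp, hpx⟩ := hint (Ideal.Quotient.mk I (X b))
    have h1 := hpoly_monic hp
    refine ⟨hpoly p.natDegree p, h1.1, ?_, ?_⟩
    · intro i hi
      rw [h1.2] at hi ⊢
      rw [hpoly_coeff, if_pos hi]
      exact homogeneousComponent_isHomogeneous _ _
    · rw [pev_hpoly (isHomogeneous_X _ _)]
      apply hhom
      rw [← Ideal.Quotient.eq_zero_iff_mem, ← hpev]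
      exact hpx

/-- The coordinate ring is a finite module over the polynomials in the linear forms. -/
theorem rank_finite {n : ℕ} (hhom : HI I) (lam : (ρ → ℂ) →ₗ[ℂ] (Fin n → ℂ))
    (hlam : ∀ p : ρ → ℂ, lam p = 0 → (∀ h ∈ I, eval p h = 0) → p = 0) :
    ∃ (m : ℕ) (w : Fin m → MvPolynomial ρ ℂ), ∀ a : MvPolynomial ρ ℂ,
      ∃ c : Fin m → MvPolynomial (Fin n) ℂ, a - ∑ j, lsub lam (c j) * w j ∈ I := by
  classical
  have hint := noe_integral I hhom lam hlam
  have hft : (noe I lam).toRingHom.FiniteType := by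
    have h1 : ((noe I lam).toRingHom.comp (algebraMap ℂ (MvPolynomial (Fin n) ℂ))).FiniteType := by
      have h2 : (noe I lam).toRingHom.comp (algebraMap ℂ (MvPolynomial (Fin n) ℂ)) =
          algebraMap ℂ (MvPolynomial ρ ℂ ⧸ I) := by
        ext t
        exact (noe I lam).commutes t
      rw [h2]
      have h3 : Algebra.FiniteType ℂ (MvPolynomial ρ ℂ ⧸ I) := inferInstance
      exact (RingHom.finiteType_algebraMap).mpr h3
    exact RingHom.FiniteType.of_comp_finiteType h1
  have hfin : (noe I lam).toRingHom.Finite := hint.to_finite hft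
  let halg : Algebra (MvPolynomial (Fin n) ℂ) (MvPolynomial ρ ℂ ⧸ I) :=
    (noe I lam).toRingHom.toAlgebra
  have hmf : Module.Finite (MvPolynomial (Fin n) ℂ) (MvPolynomial ρ ℂ ⧸ I) := hfin
  obtain ⟨m, s, hs⟩ := Module.Finite.exists_fin (R := MvPolynomial (Fin n) ℂ)
    (M := MvPolynomial ρ ℂ ⧸ I)
  choose w hw using fun j => Ideal.Quotient.mk_surjective (s j)
  refine ⟨m, w, fun a => ?_⟩
  have h1 : Ideal.Quotient.mk I a ∈ Submodule.span (MvPolynomial (Fin n) ℂ) (Set.range s) := by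
    rw [hs]; exact Submodule.mem_top
  obtain ⟨c, hc⟩ := (Submodule.mem_span_range_iff_exists_fun _).mp h1
  refine ⟨c, ?_⟩
  rw [← Ideal.Quotient.eq_zero_iff_mem, map_sub, ← hc, map_sum, sub_eq_zero]
  refine Finset.sum_congr rfl (fun j _ => ?_)
  rw [map_mul, hw j]
  rfl

/-- Every element has a denominator. -/
theorem rank_den {n : ℕ} {lam : (ρ → ℂ) →ₗ[ℂ] (Fin n → ℂ)} {z : MvPolynomial ρ ℂ}
    {f : Polynomial (MvPolynomial (Fin n) ℂ)} {D : MvPolynomial (Fin n) ℂ}
    {g : ρ → Polynomial (MvPolynomial (Fin n) ℂ)} (h : PData I lam z f D g)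
    (a : MvPolynomial ρ ℂ) : ∃ (E : MvPolynomial (Fin n) ℂ)
      (p : Polynomial (MvPolynomial (Fin n) ℂ)), E ≠ 0 ∧ lsub lam E * a - pev lam z p ∈ I := by
  induction a using MvPolynomial.induction_on with
  | C t =>
    refine ⟨1, Polynomial.C (C t), one_ne_zero, ?_⟩
    have h1 : lsub lam (C t : MvPolynomial (Fin n) ℂ) = C t := (lsub lam).commutes _
    rw [pev_C, h1, map_one, one_mul, sub_self]
    exact I.zero_mem
  | add a b ha hb =>
    obtain ⟨E, p, hE, h1⟩ := ha
    obtain ⟨E', p', hE', h2⟩ := hb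
    refine ⟨E * E', Polynomial.C E' * p + Polynomial.C E * p', mul_ne_zero hE hE', ?_⟩
    have h3 := I.add_mem (I.mul_mem_left (lsub lam E') h1) (I.mul_mem_left (lsub lam E) h2)
    have h4 : lsub lam (E * E') * (a + b) -
        pev lam z (Polynomial.C E' * p + Polynomial.C E * p') =
        lsub lam E' * (lsub lam E * a - pev lam z p) +
          lsub lam E * (lsub lam E' * b - pev lam z p') := by
      rw [map_mul, map_add (pev lam z), map_mul (pev lam z), map_mul (pev lam z), pev_C, pev_C]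
      ring
    rw [h4]
    exact h3
  | mul_X a b ha =>
    obtain ⟨E, p, hE, h1⟩ := ha
    refine ⟨E * D, p * g b, mul_ne_zero hE h.D0, ?_⟩
    have h2 := h.rat b
    have h3 := I.add_mem (I.mul_mem_left (lsub lam D * X b) h1)
      (I.mul_mem_left (pev lam z p) h2)
    have h4 : lsub lam (E * D) * (a * X b) - pev lam z (p * g b) =
        lsub lam D * X b * (lsub lam E * a - pev lam z p) +
          pev lam z p * (lsub lam D * X b - pev lam z (g b)) := by
      rw [map_mul, map_mul]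
      ring
    rw [h4]
    exact h3

/-- A common denominator. -/
theorem rank_common {n : ℕ} (hhom : HI I) {lam : (ρ → ℂ) →ₗ[ℂ] (Fin n → ℂ)}
    (hlam : ∀ p : ρ → ℂ, lam p = 0 → (∀ h ∈ I, eval p h = 0) → p = 0) {z : MvPolynomial ρ ℂ}
    {f : Polynomial (MvPolynomial (Fin n) ℂ)} {D : MvPolynomial (Fin n) ℂ}
    {g : ρ → Polynomial (MvPolynomial (Fin n) ℂ)} (h : PData I lam z f D g) :
    ∃ E : MvPolynomial (Fin n) ℂ, E ≠ 0 ∧ ∀ a : MvPolynomial ρ ℂ,
      ∃ p : Polynomial (MvPolynomial (Fin n) ℂ), lsub lam E * a - pev lam z p ∈ I := by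
  classical
  obtain ⟨m, w, hw⟩ := rank_finite hhom lam hlam
  choose E p hE hp using fun j => rank_den h (w j)
  refine ⟨∏ j, E j, Finset.prod_ne_zero_iff.mpr (fun j _ => hE j), fun a => ?_⟩
  obtain ⟨c, hc⟩ := hw a
  refine ⟨∑ j, Polynomial.C (c j * ∏ i ∈ Finset.univ.erase j, E i) * p j, ?_⟩
  have h1 : lsub lam (∏ j, E j) * a -
      pev lam z (∑ j, Polynomial.C (c j * ∏ i ∈ Finset.univ.erase j, E i) * p j) =
      lsub lam (∏ j, E j) * (a - ∑ j, lsub lam (c j) * w j) +
        ∑ j, lsub lam (c j * ∏ i ∈ Finset.univ.erase j, E i) *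
          (lsub lam (E j) * w j - pev lam z (p j)) := by
    rw [map_sum, mul_sub, Finset.mul_sum]
    simp only [map_mul (pev lam z), pev_C, mul_sub, Finset.sum_sub_distrib]
    have h2 : ∀ j, lsub lam (c j * ∏ i ∈ Finset.univ.erase j, E i) * (lsub lam (E j) * w j) =
        lsub lam (∏ j, E j) * (lsub lam (c j) * w j) := by
      intro j
      rw [← Finset.mul_prod_erase _ E (Finset.mem_univ j), map_mul, map_mul]
      ring
    simp only [h2]
    ring
  rw [h1]
  exact I.add_mem (I.mul_mem_left _ hc) (I.sum_mem (fun j _ => I.mul_mem_left _ (hp j)))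

/-- Reduction modulo the equation. -/
theorem rank_reduce {n : ℕ} {lam : (ρ → ℂ) →ₗ[ℂ] (Fin n → ℂ)} {z : MvPolynomial ρ ℂ}
    {f : Polynomial (MvPolynomial (Fin n) ℂ)} {D : MvPolynomial (Fin n) ℂ}
    {g : ρ → Polynomial (MvPolynomial (Fin n) ℂ)} (h : PData I lam z f D g)
    (hf : f ≠ 1) (p : Polynomial (MvPolynomial (Fin n) ℂ)) :
    ∃ b : Fin f.natDegree → MvPolynomial (Fin n) ℂ,
      pev lam z p - ∑ i, lsub lam (b i) * z ^ (i : ℕ) ∈ I := by
  classical
  have h1 : (p %ₘ f).natDegree < f.natDegree := Polynomial.natDegree_modByMonic_lt p h.monic hf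
  refine ⟨fun i => (p %ₘ f).coeff i, ?_⟩
  have h2 : ∑ i : Fin f.natDegree, lsub lam ((p %ₘ f).coeff i) * z ^ (i : ℕ) =
      pev lam z (p %ₘ f) := by
    rw [pev_eq_sum _ h1, ← Fin.sum_univ_eq_sum_range (fun i => lsub lam ((p %ₘ f).coeff i) * z ^ i)]
  rw [h2, ← map_sub, h.ker]
  refine ⟨p /ₘ f, ?_⟩
  rw [sub_eq_iff_eq_add]
  exact ((add_comm _ _).trans (Polynomial.modByMonic_add_div p f)).symm

theorem exists_rank {n : ℕ} (hI : I.IsPrime) (hhom : HI I)
    (hdim : ringKrullDim (MvPolynomial ρ ℂ ⧸ I) = ((n + 1 : ℕ) : WithBot ℕ∞)) {δ : ℕ}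
    (hdeg : Filter.Tendsto (fun k : ℕ => (Module.finrank ℂ (grP I k) : ℝ) / (k : ℝ) ^ n)
      Filter.atTop (nhds ((δ : ℝ) / n.factorial)))
    (lam : (ρ → ℂ) →ₗ[ℂ] (Fin (n + 1) → ℂ))
    (hlam : ∀ p : ρ → ℂ, lam p = 0 → p ∈ VI I → p = 0) :
    ∃ (d k : ℕ) (z : MvPolynomial ρ ℂ) (E : MvPolynomial (Fin (n + 1)) ℂ), d ≤ δ ∧
      E.IsHomogeneous k ∧ lsub lam E ∉ I ∧
      ∀ a : MvPolynomial ρ ℂ, ∃ b : Fin d → MvPolynomial (Fin (n + 1)) ℂ,
        lsub lam E * a - ∑ i, lsub lam (b i) * z ^ (i : ℕ) ∈ I := by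
  classical
  obtain ⟨z, f, D, g, h⟩ := rank_pdata hI hhom hdim lam hlam
  obtain ⟨E', hE', hE'a⟩ := rank_common hhom hlam h
  have hinj := noe_injective I hhom lam hlam hdim.ge
  have hf1 : f ≠ 1 := by
    intro hf1
    have h1 := (h.ker 1).mpr (by rw [hf1])
    rw [map_one] at h1
    exact hI.ne_top ((Ideal.eq_top_iff_one I).mpr h1)
  obtain ⟨k, hk⟩ : ∃ k, homogeneousComponent k E' ≠ 0 := by
    by_contra hcon
    push Not at hcon
    apply hE'
    rw [← sum_homogeneousComponent E']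
    exact Finset.sum_eq_zero (fun i _ => hcon i)
  set E := homogeneousComponent k E' with hE
  have hEh : E.IsHomogeneous k := homogeneousComponent_isHomogeneous _ _
  have hzp : ∀ i : ℕ, (z ^ i).IsHomogeneous i := by
    intro i
    have := h.hz.pow i
    rwa [one_mul] at this
  refine ⟨f.natDegree, k, z, E, h.natDegree_le hdeg, hEh, ?_, ?_⟩
  · intro hmem
    apply hk
    apply hinj
    rw [map_zero, noe_apply, Ideal.Quotient.eq_zero_iff_mem]
    exact hmem
  · -- homogeneous elements first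
    have key : ∀ (m : ℕ) (a : MvPolynomial ρ ℂ), a.IsHomogeneous m →
        ∃ b : Fin f.natDegree → MvPolynomial (Fin (n + 1)) ℂ,
          lsub lam E * a - ∑ i, lsub lam (b i) * z ^ (i : ℕ) ∈ I := by
      intro m a ha
      obtain ⟨p, hp⟩ := hE'a a
      obtain ⟨b, hb⟩ := rank_reduce h hf1 p
      have h1 : lsub lam E' * a - ∑ i, lsub lam (b i) * z ^ (i : ℕ) ∈ I := by
        have := I.add_mem hp hb
        rwa [sub_add_sub_cancel] at this
      have h2 := hhom _ h1 (k + m)
      refine ⟨fun i => if (i : ℕ) ≤ k + m then homogeneousComponent (k + m - i) (b i) else 0, ?_⟩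
      have h3 : homogeneousComponent (k + m) (lsub lam E' * a -
          ∑ i, lsub lam (b i) * z ^ (i : ℕ)) =
          lsub lam E * a - ∑ i : Fin f.natDegree, lsub lam
            (if (i : ℕ) ≤ k + m then homogeneousComponent (k + m - i) (b i) else 0) *
              z ^ (i : ℕ) := by
        rw [map_sub, map_sum, homogeneousComponent_mul_right ha, if_pos (Nat.le_add_left _ _),
          Nat.add_sub_cancel, hc_algHom _ (isHomogeneous_lsub lam)]
        congr 1
        refine Finset.sum_congr rfl (fun i _ => ?_)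
        rw [homogeneousComponent_mul_right (hzp i)]
        split_ifs with hi
        · rw [hc_algHom _ (isHomogeneous_lsub lam)]
        · rw [map_zero, zero_mul]
      rw [← h3]
      exact h2
    intro a
    choose b hb using fun m : ℕ => key m (homogeneousComponent m a)
      (homogeneousComponent_isHomogeneous _ _)
    refine ⟨fun i => ∑ m ∈ Finset.range (a.totalDegree + 1), b m i, ?_⟩
    have h1 := I.sum_mem (t := Finset.range (a.totalDegree + 1)) (fun m _ => hb m)
    have h2 : lsub lam E * a - ∑ i : Fin f.natDegree, lsub lam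
        (∑ m ∈ Finset.range (a.totalDegree + 1), b m i) * z ^ (i : ℕ) =
        ∑ m ∈ Finset.range (a.totalDegree + 1), (lsub lam E * homogeneousComponent m a -
          ∑ i, lsub lam (b m i) * z ^ (i : ℕ)) := by
      rw [Finset.sum_sub_distrib, ← Finset.mul_sum, sum_homogeneousComponent, Finset.sum_comm]
      congr 1
      refine Finset.sum_congr rfl (fun i _ => ?_)
      rw [map_sum, Finset.sum_mul]
    rw [h2]
    exact h1

end Rank

end Pool.Agent.HartE
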