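import Mathlib
import Pool.Agent.HartE.Rank
import Pool.Agent.HartE.LemD
import Pool.Agent.HartE.Count
import Pool.Agent.HartE.Asym

/-!
A weighted Bezout inequality for a finite linear projection of a projective variety.
-/

set_option autoImplicit false
set_option linter.unusedSectionVars false

namespace Pool.Agent.HartE

open Pool.Agent.Hartshorne Pool.Agent.HartA MvPolynomial

variable {ρ : Type} [Fintype ρ] [DecidableEq ρ] {I : Ideal (MvPolynomial ρ ℂ)} {c : ℕ}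

/-- **Weighted Bezout inequality.** -/
theorem weighted_bezout {n : ℕ} (hI : I.IsPrime) (hhom : HI I)
    (hdim : ringKrullDim (MvPolynomial ρ ℂ ⧸ I) = ((n + 1 : ℕ) : WithBot ℕ∞)) {δ : ℕ}
    (hdeg : Filter.Tendsto (fun k : ℕ => (Module.finrank ℂ (grP I k) : ℝ) / (k : ℝ) ^ n)
      Filter.atTop (nhds ((δ : ℝ) / n.factorial)))
    (lam : (ρ → ℂ) →ₗ[ℂ] (Fin (n + 1) → ℂ))
    (hlam : ∀ p : ρ → ℂ, lam p = 0 → p ∈ VI I → p = 0)
    {ι : Type} [Fintype ι] [DecidableEq ι] (hι : Fintype.card ι = n)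
    (wt : ι → ℕ) (hwt : ∀ j, 0 < wt j) (p : ℕ) (hp : 0 < p) {τ : ι → MvPolynomial ρ ℂ}
    (hτ : ∀ j, (τ j).IsHomogeneous 1)
    (hθ : ∀ q : ℕ, ∃ θ : MvPolynomial ρ ℂ →ₐ[ℂ] MvPolynomial ι ℂ ⧸ Jw wt q,
      (∀ g ∈ I, θ g = 0) ∧ θ (lsub lam (X 0)) = 1 ∧
      (∀ j, θ (τ j) = Ideal.Quotient.mk (Jw wt q) (X j)) ∧
      ∀ j : Fin n, ∃ f ∈ Jw wt p, θ (lsub lam (X j.succ)) = Ideal.Quotient.mk (Jw wt q) f) :
    p ^ n ≤ δ * ∏ j, wt j := by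
  obtain ⟨d, k, z, E, hdδ, hEhom, hEI, hE⟩ := exists_rank hI hhom hdim hdeg lam hlam
  obtain ⟨q₀, hq₀⟩ := exists_order hI hdeg hι wt
    (isHomogeneous_lsub lam 1 _ (isHomogeneous_X ℂ 0)) hτ (isHomogeneous_lsub lam k _ hEhom) hEI
  have h1 : p ^ n ≤ d * ∏ j, wt j := by
    refine asym hι wt hwt p q₀ hp (fun M hM hqM S hS => ?_)
    obtain ⟨θ, hθI, hs, hτ', hH⟩ := hθ (p * M)
    refine count lam z E hE wt p q₀ M hM θ hθI hs hτ' hH (fun f hf hfJ => ?_) S hS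
    obtain ⟨π, hπ⟩ : ∃ π : MvPolynomial ι ℂ ⧸ Jw wt (p * M) →ₐ[ℂ] MvPolynomial ι ℂ ⧸ Jw wt q₀,
        ∀ g, π (Ideal.Quotient.mk _ g) = Ideal.Quotient.mk _ g :=
      ⟨Ideal.Quotient.factorₐ ℂ (Jw_anti wt hqM), fun g => rfl⟩
    refine hq₀ (π.comp θ) (fun g hg => ?_) ?_ (fun j => ?_) ?_
    · rw [AlgHom.comp_apply, hθI g hg, map_zero]
    · rw [AlgHom.comp_apply, hs, map_one]
    · rw [AlgHom.comp_apply, hτ' j, hπ]
    · rw [AlgHom.comp_apply, hf, hπ]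
      exact Ideal.Quotient.eq_zero_iff_mem.mpr hfJ
  exact h1.trans (Nat.mul_le_mul_right _ hdδ)

end Pool.Agent.HartE
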