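import Mathlib
import Pool.Agent.HartA.Kappa

/-!
Linear sections of small codimension are proper.
-/

set_option autoImplicit false

namespace Pool.Agent.HartE

open Pool.Agent.Hartshorne Pool.Agent.HartA MvPolynomial

set_option linter.unusedSectionVars false

variable {ρ : Type} [Fintype ρ] [DecidableEq ρ] {I : Ideal (MvPolynomial ρ ℂ)} {c : ℕ}

/-- A polynomial outside of a prime has a nonzero value on its zero set. -/
lemma exists_eval_ne {Q : Ideal (MvPolynomial ρ ℂ)} (hQ : Q.IsPrime) {f : MvPolynomial ρ ℂ} (hf : f ∉ Q) :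
    ∃ w ∈ VI Q, eval w f ≠ 0 := by
  by_contra hcon
  push Not at hcon
  exact hf (mem_of_eval_zero hQ (fun z hz => hcon z hz))

/-- The dependence of the rows: constant vectors `ε` and gradients. -/
theorem exists_dep {ι : Type} [Fintype ι] [DecidableEq ι] {Q : Ideal (MvPolynomial ρ ℂ)} (hQ : Q.IsPrime)
    {w₁ : ρ → ℂ} (hw₁ : w₁ ∈ VI Q) (hw₁0 : w₁ ≠ 0) {ε : ι → ρ → ℂ} {F : Fin c → MvPolynomial ρ ℂ}
    (hF : LinearIndependent ℂ (fun k => grad w₁ (F k)))
    (hdep : ∀ w ∈ VI Q, w ≠ 0 → ¬ LinearIndependent ℂ (Sum.elim ε (fun k => grad w (F k)))) :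
    ∃ (μ : ι → MvPolynomial ρ ℂ) (β : Fin c → MvPolynomial ρ ℂ), (∃ i, μ i ∉ Q) ∧
      ∀ w ∈ VI Q, ∑ i, eval w (μ i) • ε i = ∑ i, eval w (β i) • grad w (F i) := by
  classical
  obtain ⟨b₀, hb₀⟩ := Function.ne_iff.mp hw₁0
  rw [Pi.zero_apply] at hb₀
  set V : ι ⊕ Fin c → ρ → MvPolynomial ρ ℂ :=
    Sum.elim (fun i b => C (ε i b)) (fun k b => pderiv b (F k)) with hV
  have hVe : ∀ w : ρ → ℂ, (fun j => fun b => eval w (V j b)) =
      Sum.elim ε (fun k => grad w (F k)) := by
    intro w
    funext j b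
    rcases j with i | k
    · simp [hV]
    · simp only [hV, Sum.elim_inr]
      rw [grad_apply]
  set R := MvPolynomial ρ ℂ ⧸ Q with hR
  set v : ι ⊕ Fin c → ρ → R := fun j b => Ideal.Quotient.mk Q (V j b) with hv
  have hnli : ¬ LinearIndependent R v := by
    intro hli
    set K := FractionRing R with hK
    set v' : ι ⊕ Fin c → ρ → K := fun j b => algebraMap R K (v j b) with hv'
    have h1 : LinearIndependent R v' := by
      let L : (ρ → R) →ₗ[R] (ρ → K) :=
        { toFun := fun x b => algebraMap R K (x b)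
          map_add' := fun x y => by funext b; simp
          map_smul' := fun r x => by
            funext b
            show algebraMap R K (r * x b) = r • algebraMap R K (x b)
            rw [map_mul]
            exact (Algebra.smul_def r (algebraMap R K (x b))).symm }
      have hL : Function.Injective L := by
        intro x y hxy
        funext b
        exact IsFractionRing.injective R K (congrFun hxy b)
      exact hli.map' L (LinearMap.ker_eq_bot.mpr hL)
    have h2 : LinearIndependent K v' := (LinearIndependent.iff_fractionRing R K).mp h1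
    obtain ⟨T, hT⟩ := kappa_exists_minor v' h2
    set M : Matrix (ι ⊕ Fin c) (ι ⊕ Fin c) (MvPolynomial ρ ℂ) :=
      Matrix.of fun j l => V j (T l) with hM
    have h3 : M.det ∉ Q := by
      intro h3
      apply hT
      have h4 : (Matrix.of fun i l => v' i (T l)) =
          (((algebraMap R K).comp (Ideal.Quotient.mk Q)).mapMatrix M) := by
        ext i l; rfl
      rw [h4, ← RingHom.map_det, RingHom.comp_apply, Ideal.Quotient.eq_zero_iff_mem.mpr h3,
        map_zero]
    have h4 : M.det * X b₀ ∉ Q := by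
      intro h4
      rcases hQ.mem_or_mem h4 with h5 | h5
      · exact h3 h5
      · have := hw₁ _ h5
        rw [eval_X] at this
        exact hb₀ this
    obtain ⟨w, hw, hwe⟩ := exists_eval_ne hQ h4
    rw [map_mul, eval_X, mul_ne_zero_iff] at hwe
    refine hdep w hw (fun h0 => hwe.2 (by rw [h0, Pi.zero_apply])) ?_
    rw [← hVe w]
    apply LinearIndependent.of_comp (LinearMap.funLeft ℂ ℂ T)
    have h5 : eval w M.det = (Matrix.of fun j l => eval w (V j (T l))).det := by
      rw [RingHom.map_det]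
      rfl
    have h6 := Matrix.linearIndependent_rows_of_det_ne_zero (h5 ▸ hwe.1)
    exact h6
  rw [Fintype.not_linearIndependent_iff] at hnli
  obtain ⟨g, hg, j₀, hj₀⟩ := hnli
  choose G hG using fun j => Ideal.Quotient.mk_surjective (g j)
  have hrel : ∀ w ∈ VI Q, ∑ j, eval w (G j) • (Sum.elim ε (fun k => grad w (F k)) j) = 0 := by
    intro w hw
    funext b
    have h1 := congrFun hg b
    have h2 : ∑ j, G j * V j b ∈ Q := by
      rw [← Ideal.Quotient.eq_zero_iff_mem, map_sum]
      rw [Finset.sum_apply, Pi.zero_apply] at h1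
      refine Eq.trans ?_ h1
      refine Finset.sum_congr rfl (fun j _ => ?_)
      rw [map_mul, hG, Pi.smul_apply, smul_eq_mul]
    have h3 := hw _ h2
    rw [map_sum] at h3
    rw [Finset.sum_apply, Pi.zero_apply, ← h3]
    refine Finset.sum_congr rfl (fun j _ => ?_)
    rw [← hVe w, map_mul]
    rfl
  refine ⟨fun i => G (Sum.inl i), fun i => - G (Sum.inr i), ?_, ?_⟩
  · by_contra hcon
    push Not at hcon
    obtain ⟨l, hl⟩ : ∃ l, G (Sum.inr l) ∉ Q := by
      rcases j₀ with i | l
      · exfalso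
        apply hj₀
        rw [← hG, Ideal.Quotient.eq_zero_iff_mem]
        exact hcon i
      · refine ⟨l, fun h => hj₀ ?_⟩
        rw [← hG, Ideal.Quotient.eq_zero_iff_mem]
        exact h
    obtain ⟨T, hT⟩ := kappa_exists_minor _ hF
    set M : Matrix (Fin c) (Fin c) (MvPolynomial ρ ℂ) :=
      Matrix.of fun j l => pderiv (T l) (F j) with hM
    have hMe : ∀ w : ρ → ℂ, eval w M.det = (Matrix.of fun j l => grad w (F j) (T l)).det := by
      intro w
      rw [RingHom.map_det]
      congr 1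
    have h3 : M.det * G (Sum.inr l) ∉ Q := by
      intro h4
      rcases hQ.mem_or_mem h4 with h5 | h5
      · have := hw₁ _ h5
        rw [hMe] at this
        exact hT this
      · exact hl h5
    obtain ⟨w, hw, hwe⟩ := exists_eval_ne hQ h3
    rw [map_mul, mul_ne_zero_iff] at hwe
    have h5 : LinearIndependent ℂ (fun k => grad w (F k)) := by
      apply LinearIndependent.of_comp (LinearMap.funLeft ℂ ℂ T)
      have h6 := Matrix.linearIndependent_rows_of_det_ne_zero (hMe w ▸ hwe.1)
      exact h6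
    have h6 := hrel w hw
    rw [Fintype.sum_sum_type] at h6
    have h7 : ∑ i : ι, eval w (G (Sum.inl i)) •
        (Sum.elim ε (fun k => grad w (F k)) (Sum.inl i)) = 0 := by
      refine Finset.sum_eq_zero (fun i _ => ?_)
      rw [hw _ (hcon i), zero_smul]
    rw [h7, zero_add] at h6
    exact hwe.2 (Fintype.linearIndependent_iff.mp h5 (fun k => eval w (G (Sum.inr k))) h6 l)
  · intro w hw
    have h1 := hrel w hw
    rw [Fintype.sum_sum_type] at h1
    simp only [Sum.elim_inl, Sum.elim_inr] at h1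
    rw [eq_neg_of_add_eq_zero_left h1, ← Finset.sum_neg_distrib]
    refine Finset.sum_congr rfl (fun i _ => ?_)
    rw [map_neg, neg_smul]

/-- The linear form with coefficients `h`. -/
noncomputable def linF (h : ρ → ℂ) : MvPolynomial ρ ℂ := ∑ b, C (h b) * X b

lemma eval_linF (h w : ρ → ℂ) : eval w (linF h) = h ⬝ᵥ w := by
  simp [linF, dotProduct]

lemma grad_linF (h w : ρ → ℂ) : grad w (linF h) = h := by
  funext b
  rw [grad_apply, linF, map_sum, map_sum]
  rw [Finset.sum_eq_single b]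
  · simp
  · intro b' _ hb'
    rw [pderiv_C_mul, pderiv_X_of_ne hb']
    simp
  · intro hb
    exact absurd (Finset.mem_univ _) hb

/-- **Tangency along a linear system.** -/
theorem tangency (hX : NX I c) {κ : Type} [Fintype κ] [DecidableEq κ] {h : κ → (ρ → ℂ)}
    (hli : LinearIndependent ℂ h) {Q : Ideal (MvPolynomial ρ ℂ)} (hQ : Q.IsPrime) (hIQ : I ≤ Q)
    (hT : ∀ w ∈ VI Q, w ≠ 0 → ∃ μ : κ → ℂ, μ ≠ 0 ∧ ∑ i, μ i • h i ∈ gradSpan I w) :
    ringKrullDim (MvPolynomial ρ ℂ ⧸ Q) ≤ ((c + Fintype.card κ - 1 : ℕ) : WithBot ℕ∞) := by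
  classical
  have hQI : ∀ w ∈ VI Q, w ∈ VI I := fun w hw g hg => hw g (hIQ hg)
  by_cases hno : ∀ w ∈ VI Q, w = 0
  · refine (kappa_dim_le_zero hQ hno).trans ?_
    exact_mod_cast Nat.zero_le (c + Fintype.card κ - 1)
  push Not at hno
  -- a nonzero point
  obtain ⟨w₁, hw₁, hw₁0⟩ := hno
  obtain ⟨F, hF, hFli⟩ := hX.hsm w₁ hw₁0 (hQI w₁ hw₁)
  have hdep : ∀ w ∈ VI Q, w ≠ 0 →
      ¬ LinearIndependent ℂ (Sum.elim h (fun k => grad w (F k))) := by
    intro w hw hw0 hli2
    obtain ⟨μ, hμ, hmem⟩ := hT w hw hw0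
    have hFw : LinearIndependent ℂ (fun k => grad w (F k)) := hli2.comp Sum.inr Sum.inr_injective
    rw [← hX.span_eq hw0 (hQI w hw) (fun j => grad_mem_gradSpan (hF j) w) hFw] at hmem
    rw [Submodule.mem_span_range_iff_exists_fun] at hmem
    obtain ⟨b, hb⟩ := hmem
    apply hμ
    funext i
    have h1 := Fintype.linearIndependent_iff.mp hli2 (Sum.elim μ (fun k => - b k)) (by
      rw [Fintype.sum_sum_type]
      simp only [Sum.elim_inl, Sum.elim_inr, neg_smul, Finset.sum_neg_distrib]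
      rw [← hb, add_neg_cancel]) (Sum.inl i)
    exact h1
  obtain ⟨μ, β, ⟨i₀, hi₀⟩, hrel⟩ := exists_dep hQ hw₁ hw₁0 hFli hdep
  obtain ⟨w₀, hw₀, hw₀e⟩ := exists_eval_ne hQ hi₀
  set H : ρ → ℂ := ∑ i, eval w₀ (μ i) • h i with hH
  have hH0 : H ≠ 0 := by
    intro h0
    exact hw₀e (Fintype.linearIndependent_iff.mp hli (fun i => eval w₀ (μ i)) h0 i₀)
  obtain ⟨Q₂, hQ₂, hle, hmem, hw₀2, hdim⟩ := exists_prime_over hQ hw₀
    (fun j : {j : κ // j ≠ i₀} =>
      C (eval w₀ (μ i₀)) * μ j.1 - C (eval w₀ (μ j.1)) * μ i₀) (by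
      intro j
      rw [map_sub, map_mul, map_mul, eval_C, eval_C]
      ring)
  have hz := hX.zakP hH0 hQ₂ (u := μ i₀) (fun h => hw₀e (hw₀2 _ h))
    (fun w hw => hQI w (fun h hh => hw h (hle hh)))
    (by
      intro w hw hw0 hwe
      have hwQ : w ∈ VI Q := fun h hh => hw h (hle hh)
      have h1 : ∀ j, eval w₀ (μ i₀) * eval w (μ j) = eval w₀ (μ j) * eval w (μ i₀) := by
        intro j
        by_cases hi : j = i₀
        · rw [hi]
        · have h2 := hw _ (hmem ⟨j, hi⟩)
          rw [map_sub, map_mul, map_mul, eval_C, eval_C, sub_eq_zero] at h2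
          exact h2
      have h2 : eval w (μ i₀) • H = eval w₀ (μ i₀) • ∑ j, eval w (μ j) • h j := by
        rw [hH, Finset.smul_sum, Finset.smul_sum]
        refine Finset.sum_congr rfl (fun j _ => ?_)
        rw [smul_smul, smul_smul, h1 j, mul_comm]
      have h3 : H = (eval w (μ i₀))⁻¹ • (eval w₀ (μ i₀) • ∑ j, eval w (μ j) • h j) := by
        rw [← h2, smul_smul, inv_mul_cancel₀ hwe, one_smul]
      rw [h3]
      refine Submodule.smul_mem _ _ (Submodule.smul_mem _ _ ?_)
      rw [hrel w hwQ]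
      refine Submodule.sum_mem _ (fun i _ => Submodule.smul_mem _ _ ?_)
      exact grad_mem_gradSpan (hF i) w)
  -- the count
  have hcard : Fintype.card {j : κ // j ≠ i₀} = Fintype.card κ - 1 := by
    rw [Fintype.card_subtype_compl, Fintype.card_subtype_eq]
  have hi0 : 0 < Fintype.card κ := Fintype.card_pos_iff.mpr ⟨i₀⟩
  rw [hcard] at hdim
  have h1 := hdim.trans (add_le_add_left hz _)
  have h2 : c + (Fintype.card κ - 1) = c + Fintype.card κ - 1 := by omega
  rw [← h2, Nat.cast_add]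
  exact h1

/-- Independent equations of a subspace. -/
lemma exists_equations (T : Submodule ℂ (ρ → ℂ)) :
    ∃ h : Fin (Fintype.card ρ - Module.finrank ℂ T) → (ρ → ℂ), LinearIndependent ℂ h ∧
      ∀ l, ∀ w ∈ T, h l ⬝ᵥ w = 0 := by
  classical
  have h1 := Subspace.finrank_add_finrank_dualAnnihilator_eq T
  rw [Module.finrank_fintype_fun_eq_card] at h1
  have h2 : Module.finrank ℂ T.dualAnnihilator = Fintype.card ρ - Module.finrank ℂ T := by omega
  let b := Module.finBasisOfFinrankEq ℂ T.dualAnnihilator h2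
  have hval : ∀ l, ∀ w : ρ → ℂ, (fun r => (b l).1 (Pi.single r 1)) ⬝ᵥ w = (b l).1 w := by
    intro l w
    rw [dotProduct]
    conv_rhs => rw [← Finset.univ_sum_single w, map_sum]
    refine Finset.sum_congr rfl (fun r _ => ?_)
    have h3 : (Pi.single r (w r) : ρ → ℂ) = w r • Pi.single r 1 := by
      rw [← Pi.single_smul, smul_eq_mul, mul_one]
    rw [h3, map_smul, smul_eq_mul, mul_comm]
  refine ⟨fun l r => (b l).1 (Pi.single r 1), ?_, ?_⟩
  · rw [Fintype.linearIndependent_iff]
    intro a ha l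
    have h3 : ∑ l, a l • b l = 0 := by
      apply Subtype.ext
      apply LinearMap.ext
      intro w
      have h4 : (∑ l, a l • fun r => (b l).1 (Pi.single r 1)) ⬝ᵥ w = 0 := by
        rw [ha, zero_dotProduct]
      rw [sum_dotProduct] at h4
      rw [Submodule.coe_sum, LinearMap.sum_apply]
      refine Eq.trans ?_ h4
      refine Finset.sum_congr rfl (fun l _ => ?_)
      rw [smul_dotProduct, hval]
      rfl
    exact Fintype.linearIndependent_iff.mp b.linearIndependent a h3 l
  · intro l w hw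
    rw [hval]
    exact (Submodule.mem_dualAnnihilator _).mp (b l).2 w hw

/-- **Linear sections of small codimension are proper.** -/
theorem proper (hX : NX I c) (T : Submodule ℂ (ρ → ℂ)) (i : ℕ)
    (hi : Fintype.card ρ ≤ Module.finrank ℂ T + i) (hN : 2 * c + 2 * i ≤ Fintype.card ρ + 1)
    {Q : Ideal (MvPolynomial ρ ℂ)} (hQ : Q.IsPrime) (hIQ : I ≤ Q) (hQT : ∀ w ∈ VI Q, w ∈ T) :
    ringKrullDim (MvPolynomial ρ ℂ ⧸ Q) + (c : WithBot ℕ∞) ≤
      ((Module.finrank ℂ T : ℕ) : WithBot ℕ∞) := by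
  classical
  set t := Module.finrank ℂ T with ht
  have htc : t ≤ Fintype.card ρ := by
    rw [ht, ← Module.finrank_fintype_fun_eq_card ℂ (η := ρ)]
    exact Submodule.finrank_le T
  obtain ⟨h, hh, hhT⟩ : ∃ h : Fin (Fintype.card ρ - t) → (ρ → ℂ), LinearIndependent ℂ h ∧
      ∀ l, ∀ w ∈ T, h l ⬝ᵥ w = 0 := exists_equations T
  by_contra hcon
  rw [not_le] at hcon
  have hd := kappa_add_one_le hcon
  -- no `c + i'` independent gradients
  have hcount : ∀ w ∈ VI Q, ∀ a : Fin (Fintype.card ρ - t) ⊕ Fin c → (ρ → ℂ), LinearIndependent ℂ a →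
      ¬ ∀ j, ∃ f ∈ Q, grad w f = a j := by
    intro w hw a hli ha
    have h1 := kappa_dim_add_card_le hQ hw hli ha
    rw [Fintype.card_sum, Fintype.card_fin, Fintype.card_fin] at h1
    have h2 : ((t + 1 + (Fintype.card ρ - t) : ℕ) : WithBot ℕ∞) ≤
        ((Fintype.card ρ : ℕ) : WithBot ℕ∞) := by
      refine le_trans ?_ h1
      rw [Nat.cast_add (t + 1), Nat.cast_add (Fintype.card ρ - t), add_comm ((Fintype.card ρ - t : ℕ) : WithBot ℕ∞),
        ← add_assoc]
      exact add_le_add_left hd _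
    have h3 : t + 1 + (Fintype.card ρ - t) ≤ Fintype.card ρ := by exact_mod_cast h2
    omega
  have hQI : ∀ w ∈ VI Q, w ∈ VI I := fun w hw g hg => hw g (hIQ hg)
  have hhQ : ∀ l, linF (h l) ∈ Q := fun l => mem_of_eval_zero hQ (fun z hz => by
    rw [eval_linF]
    exact hhT l z (hQT z hz))
  have hT : ∀ w ∈ VI Q, w ≠ 0 → ∃ μ : Fin (Fintype.card ρ - t) → ℂ, μ ≠ 0 ∧
      ∑ i, μ i • h i ∈ gradSpan I w := by
    intro w hw hw0
    obtain ⟨F, hF, hFli⟩ := hX.hsm w hw0 (hQI w hw)
    have h1 : ¬ LinearIndependent ℂ (Sum.elim h (fun k => grad w (F k))) := by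
      intro hli
      refine hcount w hw _ hli ?_
      rintro (l | k)
      · exact ⟨linF (h l), hhQ l, grad_linF _ _⟩
      · exact ⟨F k, hIQ (hF k), rfl⟩
    rw [Fintype.not_linearIndependent_iff] at h1
    obtain ⟨g, hg, j₀, hj₀⟩ := h1
    rw [Fintype.sum_sum_type] at hg
    simp only [Sum.elim_inl, Sum.elim_inr] at hg
    refine ⟨fun l => g (Sum.inl l), ?_, ?_⟩
    · intro h0
      have h2 : ∀ l, g (Sum.inl l) = 0 := fun l => congrFun h0 l
      have h3 : ∑ k, g (Sum.inr k) • grad w (F k) = 0 := by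
        rw [← hg]
        simp [h2]
      rcases j₀ with l | k
      · exact hj₀ (h2 l)
      · exact hj₀ (Fintype.linearIndependent_iff.mp hFli (fun k => g (Sum.inr k)) h3 k)
    · have h4 : ∑ l, g (Sum.inl l) • h l = - ∑ k, g (Sum.inr k) • grad w (F k) :=
        eq_neg_of_add_eq_zero_left hg
      rw [h4]
      refine Submodule.neg_mem _ (Submodule.sum_mem _ (fun k _ => Submodule.smul_mem _ _ ?_))
      exact grad_mem_gradSpan (hF k) w
  have h5 := tangency hX hh hQ hIQ hT
  rw [Fintype.card_fin] at h5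
  have h6 : ((t + 1 : ℕ) : WithBot ℕ∞) ≤ ((c + (Fintype.card ρ - t) - 1 + c : ℕ) : WithBot ℕ∞) := by
    rw [Nat.cast_add (c + (Fintype.card ρ - t) - 1)]
    exact hd.trans (add_le_add_left h5 _)
  have h7 : t + 1 ≤ c + (Fintype.card ρ - t) - 1 + c := by exact_mod_cast h6
  omega

end Pool.Agent.HartE
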