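import Mathlib
import Pool.Agent.HartD.Noether
import Pool.Agent.HartN.Hyp
import Pool.Agent.HartE.Tang

/-!
A flag in general position inside a linear space.
-/

namespace Pool.Agent.HartE

open Pool.Agent.Hartshorne Pool.Agent.HartA MvPolynomial

set_option linter.unusedSectionVars false

variable {ρ : Type} [Fintype ρ] [DecidableEq ρ] {I : Ideal (MvPolynomial ρ ℂ)} {c : ℕ}

lemma flagT_surj {m : ℕ} (ι : (Fin m → ℂ) →ₗ[ℂ] (ρ → ℂ)) (hι : Function.Injective ι) :
    Function.Surjective (lsub ι) := by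
  obtain ⟨π, hπ⟩ := LinearMap.exists_leftInverse_of_injective ι (LinearMap.ker_eq_bot.mpr hι)
  intro f
  refine ⟨lsub π f, ?_⟩
  apply MvPolynomial.funext
  intro x
  rw [eval_lsub, eval_lsub]
  have h1 : π (ι x) = x := LinearMap.congr_fun hπ x
  rw [h1]

lemma flagT_HI {m : ℕ} (ι : (Fin m → ℂ) →ₗ[ℂ] (ρ → ℂ)) (hι : Function.Injective ι)
    (hhom : HI I) : HI (I.map (lsub ι)) := by
  intro f hf e
  obtain ⟨g, hg, rfl⟩ := (Ideal.mem_map_iff_of_surjective _ (flagT_surj ι hι)).mp hf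
  have h1 := Ideal.mem_map_of_mem (lsub ι) (hhom g hg e)
  rwa [hc_algHom _ (isHomogeneous_lsub ι)]

lemma flagT_zero {m : ℕ} (ι : (Fin m → ℂ) →ₗ[ℂ] (ρ → ℂ)) (hι : Function.Injective ι)
    (z : Fin m → ℂ) : (∀ h ∈ I.map (lsub ι), eval z h = 0) ↔ ι z ∈ VI I := by
  constructor
  · intro h g hg
    rw [← eval_lsub]
    exact h _ (Ideal.mem_map_of_mem (lsub ι) hg)
  · intro h f hf
    obtain ⟨g, hg, rfl⟩ := (Ideal.mem_map_iff_of_surjective _ (flagT_surj ι hι)).mp hf
    rw [eval_lsub]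
    exact h g hg

/-- A point outside of a linear space is separated from it by a linear form. -/
lemma flagT_sep {T : Submodule ℂ (ρ → ℂ)} {w : ρ → ℂ} (hw : w ∉ T) :
    ∃ L : MvPolynomial ρ ℂ, eval w L ≠ 0 ∧ ∀ y ∈ T, eval y L = 0 := by
  obtain ⟨φ, hφ, hφT⟩ := Submodule.exists_dual_map_eq_bot_of_notMem hw inferInstance
  have hev : ∀ y : ρ → ℂ, eval y (∑ r, C (φ (Pi.single r 1)) * X r : MvPolynomial ρ ℂ) = φ y := by
    intro y
    rw [map_sum]
    have h1 : y = ∑ r, y r • (Pi.single r (1 : ℂ) : ρ → ℂ) := by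
      funext j
      rw [Finset.sum_apply, Finset.sum_eq_single j]
      · simp
      · intro b _ hb
        simp [Pi.single_eq_of_ne (Ne.symm hb)]
      · intro h
        exact absurd (Finset.mem_univ j) h
    conv_rhs => rw [h1, map_sum]
    refine Finset.sum_congr rfl (fun r _ => ?_)
    rw [map_mul, eval_C, eval_X, map_smul, smul_eq_mul, mul_comm]
  refine ⟨_, by rw [hev]; exact hφ, fun y hy => ?_⟩
  rw [hev]
  have h2 : φ y ∈ T.map φ := Submodule.mem_map_of_mem hy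
  rw [hφT] at h2
  exact (Submodule.mem_bot ℂ).mp h2

/-- The dimension of the section by a linear space. -/
lemma flagT_dim (hX : NX I c) (T : Submodule ℂ (ρ → ℂ)) (i : ℕ)
    (hi : Fintype.card ρ ≤ Module.finrank ℂ T + i) (hN : 2 * c + 2 * i ≤ Fintype.card ρ + 1)
    {m : ℕ} (ι : (Fin m → ℂ) →ₗ[ℂ] (ρ → ℂ)) (hι : Function.Injective ι) (hιT : ∀ z, ι z ∈ T)
    (hm : Module.finrank ℂ T = m) {a : ℕ}
    (ha : ((a : ℕ) : WithBot ℕ∞) ≤ ringKrullDim (MvPolynomial (Fin m) ℂ ⧸ I.map (lsub ι))) :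
    a + c ≤ m := by
  obtain ⟨Q, hQ, hJQ, hQd⟩ := Hartshorne.exists_prime_over (I.map (lsub ι)) (a := a) (b := 0) (by
    rw [Nat.cast_zero, add_zero]; exact ha)
  rw [Nat.cast_zero, add_zero] at hQd
  have hQ' : (Q.comap (lsub ι)).IsPrime := Ideal.comap_isPrime _ _
  have hIQ : I ≤ Q.comap (lsub ι) := fun f hf => hJQ (Ideal.mem_map_of_mem (lsub ι) hf)
  have hQT : ∀ w ∈ VI (Q.comap (lsub ι)), w ∈ T := by
    intro w hw
    by_contra hwT
    obtain ⟨L, hL, hLT⟩ := flagT_sep hwT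
    apply hL
    apply hw
    rw [Ideal.mem_comap]
    have h1 : lsub ι L = 0 := by
      apply MvPolynomial.funext
      intro x
      rw [eval_lsub, hLT _ (hιT x), map_zero]
    rw [h1]
    exact Q.zero_mem
  have h1 := proper hX T i hi hN hQ' hIQ hQT
  have h2 : ringKrullDim (MvPolynomial (Fin m) ℂ ⧸ Q) ≤
      ringKrullDim (MvPolynomial ρ ℂ ⧸ Q.comap (lsub ι)) := by
    refine ringKrullDim_le_of_surjective
      (Ideal.quotientMap Q (lsub ι : MvPolynomial ρ ℂ →+* MvPolynomial (Fin m) ℂ) le_rfl) ?_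
    exact Ideal.quotientMap_surjective (flagT_surj ι hι)
  have h3 : ((a + c : ℕ) : WithBot ℕ∞) ≤ ((m : ℕ) : WithBot ℕ∞) := by
    rw [Nat.cast_add, ← hm]
    refine le_trans ?_ h1
    gcongr
    exact hQd.trans h2
  exact_mod_cast h3

/-- **A flag in general position inside a linear space.** -/
theorem exists_flagT (hX : NX I c) (hc : 0 < c) (T : Submodule ℂ (ρ → ℂ)) (i : ℕ)
    (hi : Fintype.card ρ ≤ Module.finrank ℂ T + i) (hN : 2 * c + 2 * i ≤ Fintype.card ρ + 1)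
    {v : ρ → ℂ} (hvT : v ∈ T) (hv : v ∉ VI I) :
    ∃ a : Fin c → (ρ → ℂ), LinearIndependent ℂ a ∧ a ⟨0, hc⟩ = v ∧ (∀ k, a k ∈ T) ∧
      ∀ z : Fin c → ℂ, comb a z ∈ VI I → z = 0 := by
  obtain ⟨m, hm⟩ : ∃ m, Module.finrank ℂ T = m := ⟨_, rfl⟩
  set b : (Fin m → ℂ) ≃ₗ[ℂ] T := (Module.finBasisOfFinrankEq ℂ T hm).equivFun.symm with hb
  set ι : (Fin m → ℂ) →ₗ[ℂ] (ρ → ℂ) := T.subtype ∘ₗ (b : (Fin m → ℂ) →ₗ[ℂ] T) with hιdef
  have hι : Function.Injective ι := T.injective_subtype.comp b.injective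
  have hιT : ∀ z, ι z ∈ T := fun z => (b z).2
  obtain ⟨v', hv'⟩ : ∃ v', ι v' = v := by
    refine ⟨b.symm ⟨v, hvT⟩, ?_⟩
    show ((b (b.symm ⟨v, hvT⟩) : T) : ρ → ℂ) = v
    rw [LinearEquiv.apply_symm_apply]
  have hdim : ∀ a : ℕ, ((a : ℕ) : WithBot ℕ∞) ≤
      ringKrullDim (MvPolynomial (Fin m) ℂ ⧸ I.map (lsub ι)) → a + c ≤ m :=
    fun a ha => flagT_dim hX T i hi hN ι hι hιT hm ha
  have hcm : c ≤ m := by
    have h1 := hdim 0 (by
      have hne : I.map (lsub ι) ≠ ⊤ := by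
        intro htop
        have h2 := (flagT_zero (I := I) ι hι 0).mpr (by rw [map_zero]; exact hX.zero_mem) 1 (by
          rw [htop]; trivial)
        rw [map_one] at h2
        exact one_ne_zero h2
      have : Nontrivial (MvPolynomial (Fin m) ℂ ⧸ I.map (lsub ι)) :=
        Ideal.Quotient.nontrivial_iff.mpr hne
      rw [Nat.cast_zero]
      exact ringKrullDim_nonneg_of_nontrivial)
    omega
  have hv0 : v ≠ 0 := fun h => hv (h ▸ hX.zero_mem)
  have hv'0 : v' ≠ 0 := by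
    rintro rfl
    rw [map_zero] at hv'
    exact hv0 hv'.symm
  have key : ∀ q : ℕ, q + 1 ≤ c → ∃ e : Fin (q + 1) → (Fin m → ℂ), LinearIndependent ℂ e ∧
      e 0 = v' ∧ ∀ z : Fin (q + 1) → ℂ,
        (∀ h ∈ I.map (lsub ι), eval (comb e z) h = 0) → z = 0 := by
    intro q
    induction q with
    | zero =>
      intro _
      refine ⟨fun _ => v', ?_, rfl, ?_⟩
      · have h0 : LinearIndependent ℂ (fun _ : Fin 1 => v') := linearIndependent_unique_iff.mpr hv'0
        exact h0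
      · intro z hz
        rw [flagT_zero ι hι, comb_apply, Fin.sum_univ_one, map_smul, hv'] at hz
        by_contra hne
        have hz0 : z 0 ≠ 0 := by
          intro h0
          apply hne
          funext j
          have hj : j = 0 := Fin.ext (by have := j.2; show (j : ℕ) = 0; omega)
          rw [hj, h0]
          rfl
        have h1 := VI_smul hX.hhom hz (z 0)⁻¹
        rw [smul_smul, inv_mul_cancel₀ hz0, one_smul] at h1
        exact hv h1
    | succ q ih =>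
      intro hq
      obtain ⟨e, hli, he0, hcon⟩ := ih (by omega)
      obtain ⟨r, hr⟩ : ∃ r, r + 1 + (q + 1) = m := ⟨m - (q + 2), by omega⟩
      obtain ⟨w, hw, hwcon⟩ := extend_flag (I.map (lsub ι)) (flagT_HI ι hι hX.hhom) e hli
        (r := r) (by rw [Fintype.card_fin]; exact hr) hcon (by
          intro hle
          have h1 := hdim (r + 1) hle
          omega)
      refine ⟨_, hw, ?_, hwcon⟩
      have h1 : (0 : Fin (q + 1 + 1)) = Fin.castSucc 0 := rfl
      rw [h1, Fin.snoc_castSucc]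
      exact he0
  obtain ⟨q, rfl⟩ : ∃ q, c = q + 1 := ⟨c - 1, by omega⟩
  obtain ⟨e, hli, he0, hcon⟩ := key q le_rfl
  refine ⟨fun k => ι (e k), ?_, ?_, fun k => hιT _, ?_⟩
  · exact hli.map' ι (LinearMap.ker_eq_bot.mpr hι)
  · show ι (e 0) = v
    rw [he0, hv']
  · intro z hz
    apply hcon
    rw [flagT_zero ι hι]
    have h1 : comb (fun k => ι (e k)) z = ι (comb e z) := by
      rw [comb_apply, comb_apply, map_sum]
      exact Finset.sum_congr rfl (fun k _ => by rw [map_smul])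
    rwa [← h1]

end Pool.Agent.HartE
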