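import Mathlib
import Pool.Agent.HartE.Defs

/-!
Implicit functions in an algebra with a nilpotent ideal.
-/

set_option autoImplicit false
set_option linter.unusedSectionVars false

namespace Pool.Agent.HartE

open Pool.Agent.Hartshorne Pool.Agent.HartA MvPolynomial

section Newton

variable {ρ : Type*} [Fintype ρ] {R : Type*} [CommRing R] [Algebra ℂ R]

/-- Taylor expansion to first order. -/
theorem impl_taylor [DecidableEq ρ] (Ψ z : ρ → R) (K : Ideal R) (hz : ∀ b, z b ∈ K)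
    (P : MvPolynomial ρ ℂ) :
    aeval (fun b => Ψ b + z b) P - aeval Ψ P - ∑ b, aeval Ψ (pderiv b P) * z b ∈ K * K := by
  induction P using MvPolynomial.induction_on with
  | C a =>
    simp
  | add p q hp hq =>
    have h1 : aeval (fun b => Ψ b + z b) (p + q) - aeval Ψ (p + q) -
        ∑ b, aeval Ψ (pderiv b (p + q)) * z b =
        (aeval (fun b => Ψ b + z b) p - aeval Ψ p - ∑ b, aeval Ψ (pderiv b p) * z b) +
        (aeval (fun b => Ψ b + z b) q - aeval Ψ q - ∑ b, aeval Ψ (pderiv b q) * z b) := by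
      simp only [map_add, add_mul, Finset.sum_add_distrib]
      ring
    rw [h1]
    exact Ideal.add_mem _ hp hq
  | mul_X p c hp =>
    obtain ⟨E, hE⟩ : ∃ E, E = aeval (fun b => Ψ b + z b) p - aeval Ψ p -
        ∑ b, aeval Ψ (pderiv b p) * z b := ⟨_, rfl⟩
    obtain ⟨L, hL⟩ : ∃ L, L = ∑ b, aeval Ψ (pderiv b p) * z b := ⟨_, rfl⟩
    rw [← hE] at hp
    have hLK : L ∈ K := by
      rw [hL]
      exact Ideal.sum_mem _ (fun b _ => Ideal.mul_mem_left _ _ (hz b))
    have h1 : aeval (fun b => Ψ b + z b) p = aeval Ψ p + L + E := by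
      rw [hE, hL]; ring
    have h2 : ∑ b, aeval Ψ (pderiv b (p * X c)) * z b = L * Ψ c + aeval Ψ p * z c := by
      have h3 : ∀ b, aeval Ψ (pderiv b (p * X c)) * z b =
          aeval Ψ (pderiv b p) * z b * Ψ c + (if b = c then aeval Ψ p * z c else 0) := by
        intro b
        rw [Derivation.leibniz, pderiv_X, smul_eq_mul, smul_eq_mul, map_add, map_mul, map_mul,
          aeval_X]
        by_cases hb : b = c
        · subst hb
          rw [Pi.single_eq_same, if_pos rfl, map_one]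
          ring
        · rw [Pi.single_eq_of_ne' hb, if_neg hb, map_zero]
          ring
      rw [Finset.sum_congr rfl (fun b _ => h3 b), Finset.sum_add_distrib, ← Finset.sum_mul, ← hL,
        Finset.sum_ite_eq' Finset.univ c]
      simp
    have h4 : aeval (fun b => Ψ b + z b) (p * X c) - aeval Ψ (p * X c) -
        ∑ b, aeval Ψ (pderiv b (p * X c)) * z b = L * z c + E * (Ψ c + z c) := by
      rw [h2, map_mul, map_mul, h1, aeval_X, aeval_X]
      ring
    rw [h4]
    exact Ideal.add_mem _ (Ideal.mul_mem_mul hLK (hz c)) (Ideal.mul_mem_right _ _ hp)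

/-- The value at a point near a complex point. -/
theorem impl_sub_mem (Ψ : ρ → R) (x : ρ → ℂ) (𝔪 : Ideal R)
    (hΨ : ∀ b, Ψ b - algebraMap ℂ R (x b) ∈ 𝔪) (P : MvPolynomial ρ ℂ) :
    aeval Ψ P - algebraMap ℂ R (eval x P) ∈ 𝔪 := by
  induction P using MvPolynomial.induction_on with
  | C a => simp
  | add p q hp hq =>
    have h1 : aeval Ψ (p + q) - algebraMap ℂ R (eval x (p + q)) =
        (aeval Ψ p - algebraMap ℂ R (eval x p)) + (aeval Ψ q - algebraMap ℂ R (eval x q)) := by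
      simp only [map_add]; ring
    rw [h1]
    exact Ideal.add_mem _ hp hq
  | mul_X p c hp =>
    have h1 : aeval Ψ (p * X c) - algebraMap ℂ R (eval x (p * X c)) =
        (aeval Ψ p - algebraMap ℂ R (eval x p)) * Ψ c +
          algebraMap ℂ R (eval x p) * (Ψ c - algebraMap ℂ R (x c)) := by
      rw [map_mul, map_mul, aeval_X, eval_X, map_mul]
      ring
    rw [h1]
    exact Ideal.add_mem _ (Ideal.mul_mem_right _ _ hp) (Ideal.mul_mem_left _ _ (hΨ c))

/-- **Implicit functions in an algebra with a nilpotent ideal.** -/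
theorem impl_newton [DecidableEq ρ] {σ : Type*} [Fintype σ] [DecidableEq σ]
    (F : σ → MvPolynomial ρ ℂ) (Ψ : ρ → R) (x : ρ → ℂ) (e : σ → ρ → ℂ) (𝔪 J : Ideal R) (M : ℕ)
    (hM : 𝔪 ^ M = ⊥) (hΨ : ∀ b, Ψ b - algebraMap ℂ R (x b) ∈ 𝔪) (hJ : J ≤ 𝔪)
    (hdet : (Matrix.of fun i l => ∑ b, eval x (pderiv b (F i)) * e l b).det ≠ 0)
    (hF : ∀ i, aeval Ψ (F i) ∈ J) :
    ∃ φ : σ → R, (∀ l, φ l ∈ J) ∧
      ∀ i, aeval (fun b => Ψ b + ∑ l, φ l * algebraMap ℂ R (e l b)) (F i) = 0 := by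
  classical
  set G : Matrix σ σ ℂ := Matrix.of fun i l => ∑ b, eval x (pderiv b (F i)) * e l b with hG
  have hGinv : G * G⁻¹ = 1 := Matrix.mul_nonsing_inv G (Ne.isUnit hdet)
  have key : ∀ k : ℕ, ∃ φ : σ → R, (∀ l, φ l ∈ J) ∧
      ∀ i, aeval (fun b => Ψ b + ∑ l, φ l * algebraMap ℂ R (e l b)) (F i) ∈ J ⊓ 𝔪 ^ k := by
    intro k
    induction k with
    | zero =>
      refine ⟨fun _ => 0, fun _ => J.zero_mem, fun i => ?_⟩
      simp only [zero_mul, Finset.sum_const_zero, add_zero, pow_zero, Ideal.one_eq_top,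
        inf_top_eq]
      exact hF i
    | succ k ih =>
      obtain ⟨φ, hφ, hr⟩ := ih
      obtain ⟨Ψ', hΨ'⟩ : ∃ Ψ' : ρ → R, Ψ' = fun b => Ψ b + ∑ l, φ l * algebraMap ℂ R (e l b) :=
        ⟨_, rfl⟩
      rw [← hΨ'] at hr
      obtain ⟨r, hrd⟩ : ∃ r : σ → R, r = fun i => aeval Ψ' (F i) := ⟨_, rfl⟩
      have hrK : ∀ i, r i ∈ J ⊓ 𝔪 ^ k := fun i => by rw [hrd]; exact hr i
      obtain ⟨z, hz⟩ : ∃ z : σ → R, z = fun l => - ∑ j, algebraMap ℂ R (G⁻¹ l j) * r j := ⟨_, rfl⟩
      have hzK : ∀ l, z l ∈ J ⊓ 𝔪 ^ k := by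
        intro l
        rw [hz]
        exact Submodule.neg_mem _ (Ideal.sum_mem _ (fun j _ => Ideal.mul_mem_left _ _ (hrK j)))
      obtain ⟨ζ, hζ⟩ : ∃ ζ : ρ → R, ζ = fun b => ∑ l, z l * algebraMap ℂ R (e l b) := ⟨_, rfl⟩
      have hζK : ∀ b, ζ b ∈ J ⊓ 𝔪 ^ k := by
        intro b
        rw [hζ]
        exact Ideal.sum_mem _ (fun l _ => Ideal.mul_mem_right _ _ (hzK l))
      have hΨ'm : ∀ b, Ψ' b - algebraMap ℂ R (x b) ∈ 𝔪 := by
        intro b
        rw [hΨ']
        have h1 : Ψ b + ∑ l, φ l * algebraMap ℂ R (e l b) - algebraMap ℂ R (x b) =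
            (Ψ b - algebraMap ℂ R (x b)) + ∑ l, φ l * algebraMap ℂ R (e l b) := by ring
        show Ψ b + ∑ l, φ l * algebraMap ℂ R (e l b) - algebraMap ℂ R (x b) ∈ 𝔪
        rw [h1]
        exact Ideal.add_mem _ (hΨ b)
          (Ideal.sum_mem _ (fun l _ => Ideal.mul_mem_right _ _ (hJ (hφ l))))
      refine ⟨fun l => φ l + z l, fun l => J.add_mem (hφ l) (hzK l).1, fun i => ?_⟩
      have h2 : (fun b => Ψ b + ∑ l, (φ l + z l) * algebraMap ℂ R (e l b)) =
          fun b => Ψ' b + ζ b := by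
        funext b
        rw [hΨ', hζ]
        simp only [add_mul, Finset.sum_add_distrib]
        ring
      have h3 := impl_taylor Ψ' ζ (J ⊓ 𝔪 ^ k) hζK (F i)
      -- the linear term
      have h4 : r i + ∑ b, algebraMap ℂ R (eval x (pderiv b (F i))) * ζ b = 0 := by
        have h5 : ∑ b, algebraMap ℂ R (eval x (pderiv b (F i))) * ζ b =
            ∑ l, algebraMap ℂ R (G i l) * z l := by
          rw [hζ]
          simp only [Finset.mul_sum]
          rw [Finset.sum_comm]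
          refine Finset.sum_congr rfl (fun l _ => ?_)
          rw [hG, Matrix.of_apply, map_sum, Finset.sum_mul]
          refine Finset.sum_congr rfl (fun b _ => ?_)
          rw [map_mul]
          ring
        have h6 : ∑ l, algebraMap ℂ R (G i l) * z l = - r i := by
          rw [hz]
          have h7 : ∑ l, algebraMap ℂ R (G i l) * -∑ j, algebraMap ℂ R (G⁻¹ l j) * r j =
              - ∑ j, algebraMap ℂ R ((G * G⁻¹) i j) * r j := by
            simp only [mul_neg, Finset.sum_neg_distrib, Finset.mul_sum]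
            rw [Finset.sum_comm]
            congr 1
            refine Finset.sum_congr rfl (fun j _ => ?_)
            rw [Matrix.mul_apply, map_sum, Finset.sum_mul]
            refine Finset.sum_congr rfl (fun l _ => ?_)
            rw [map_mul]
            ring
          rw [h7, hGinv]
          congr 1
          rw [Finset.sum_eq_single i]
          · rw [Matrix.one_apply_eq, map_one, one_mul]
          · intro j _ hj
            rw [Matrix.one_apply_ne hj.symm, map_zero, zero_mul]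
          · intro h
            exact absurd (Finset.mem_univ i) h
        rw [h5, h6]
        ring
      have h8 : ∑ b, (aeval Ψ' (pderiv b (F i)) - algebraMap ℂ R (eval x (pderiv b (F i)))) * ζ b ∈
          𝔪 * (J ⊓ 𝔪 ^ k) :=
        Ideal.sum_mem _ (fun b _ => Ideal.mul_mem_mul (impl_sub_mem Ψ' x 𝔪 hΨ'm _) (hζK b))
      have h9 : aeval (fun b => Ψ' b + ζ b) (F i) =
          (aeval (fun b => Ψ' b + ζ b) (F i) - aeval Ψ' (F i) -
            ∑ b, aeval Ψ' (pderiv b (F i)) * ζ b) +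
          ∑ b, (aeval Ψ' (pderiv b (F i)) - algebraMap ℂ R (eval x (pderiv b (F i)))) * ζ b := by
        have h10 : r i = aeval Ψ' (F i) := by rw [hrd]
        simp only [sub_mul, Finset.sum_sub_distrib]
        rw [← h10]
        linear_combination h4
      have hsq : (J ⊓ 𝔪 ^ k) * (J ⊓ 𝔪 ^ k) ≤ 𝔪 * (J ⊓ 𝔪 ^ k) :=
        Ideal.mul_mono_left (inf_le_left.trans hJ)
      have hle : 𝔪 * (J ⊓ 𝔪 ^ k) ≤ J ⊓ 𝔪 ^ (k + 1) := by
        refine le_inf ?_ ?_
        · exact (Ideal.mul_le_right).trans inf_le_left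
        · rw [pow_succ']
          exact Ideal.mul_mono_right inf_le_right
      rw [h2, h9]
      exact hle (Ideal.add_mem _ (hsq h3) h8)
  obtain ⟨φ, hφ, h⟩ := key M
  refine ⟨φ, hφ, fun i => ?_⟩
  have h1 := (h i).2
  rw [hM] at h1
  exact h1

/-- An element which is a nonzero number plus a nilpotent is a unit. -/
theorem impl_isUnit (Ψ : ρ → R) (x : ρ → ℂ) (𝔪 : Ideal R) (M : ℕ) (hM : 𝔪 ^ M = ⊥)
    (hΨ : ∀ b, Ψ b - algebraMap ℂ R (x b) ∈ 𝔪) (U : MvPolynomial ρ ℂ) (hU : eval x U ≠ 0) :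
    IsUnit (aeval Ψ U) := by
  have h1 := impl_sub_mem Ψ x 𝔪 hΨ U
  have h2 : IsNilpotent (aeval Ψ U - algebraMap ℂ R (eval x U)) := by
    refine ⟨M, ?_⟩
    have h3 := Ideal.pow_mem_pow h1 M
    rwa [hM, Submodule.mem_bot] at h3
  have h4 : IsUnit (algebraMap ℂ R (eval x U)) := (Ne.isUnit hU).map (algebraMap ℂ R)
  have h5 := h2.isUnit_add_left_of_commute h4 (Commute.all _ _)
  rwa [add_sub_cancel] at h5

end Newton

section Main

variable {ρ : Type} [Fintype ρ] [DecidableEq ρ] {c : ℕ}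

/-- **Implicit functions**: a common zero of `F_1, ..., F_c` near an approximate one. -/
theorem exists_phi {R : Type*} [CommRing R] [Algebra ℂ R] {N A : Ideal R} (hN : IsNilpotent N)
    (hA : A ≤ N) (x : ρ → ℂ) (ψ : ρ → R) (hψ : ∀ r, ψ r - algebraMap ℂ R (x r) ∈ N)
    (F : Fin c → MvPolynomial ρ ℂ) (e : Fin c → (ρ → ℂ))
    (hdet : (Matrix.of fun i l => grad x (F i) ⬝ᵥ e l).det ≠ 0)
    (hF : ∀ i, aeval ψ (F i) ∈ A) :
    ∃ φ : Fin c → R, (∀ l, φ l ∈ A) ∧
      ∀ i, aeval (fun r => ψ r + ∑ l, φ l * algebraMap ℂ R (e l r)) (F i) = 0 := by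
  obtain ⟨M, hM⟩ := hN
  refine impl_newton F ψ x e N A M (by simpa using hM) hψ hA ?_ hF
  have h1 : (Matrix.of fun i l => ∑ b, eval x (pderiv b (F i)) * e l b) =
      Matrix.of fun i l => grad x (F i) ⬝ᵥ e l := by
    ext i l
    rw [Matrix.of_apply, Matrix.of_apply, grad_eq_fun, dotProduct]
  rw [h1]
  exact hdet

/-- A point of the scheme `F = 0` near a point where `U` does not vanish. -/
theorem kill {R : Type*} [CommRing R] [Algebra ℂ R] {N : Ideal R} (hN : IsNilpotent N)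
    (x : ρ → ℂ) (θ : MvPolynomial ρ ℂ →ₐ[ℂ] R)
    (hθ : ∀ r, θ (X r) - algebraMap ℂ R (x r) ∈ N) {F : Fin c → MvPolynomial ρ ℂ}
    (hF : ∀ i, θ (F i) = 0) {U G : MvPolynomial ρ ℂ} (hU : eval x U ≠ 0)
    (hUG : U * G ∈ Ideal.span (Set.range F)) : θ G = 0 := by
  obtain ⟨M, hM⟩ := hN
  have h0 : θ = aeval (fun r => θ (X r)) := by
    apply MvPolynomial.algHom_ext
    intro r
    rw [aeval_X]
  have h1 : IsUnit (θ U) := by
    rw [h0]
    exact impl_isUnit _ x N M (by simpa using hM) hθ U hU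
  have h2 : Ideal.span (Set.range F) ≤ RingHom.ker (θ : MvPolynomial ρ ℂ →+* R) := by
    rw [Ideal.span_le]
    rintro _ ⟨i, rfl⟩
    exact hF i
  have h3 : θ (U * G) = 0 := h2 hUG
  rw [map_mul] at h3
  exact (h1.mul_right_eq_zero).mp h3

end Main

end Pool.Agent.HartE
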