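import Mathlib
import Pool.Agent.HartD.FinalD
import Pool.Agent.HartE.Defs

/-!
Auxiliary facts for lines with large contact: weights, bases, linear forms, the contact space.
-/

namespace Pool.Agent.HartE

open Pool.Agent.Hartshorne Pool.Agent.HartA MvPolynomial

set_option linter.unusedSectionVars false

section LemE

variable {ρ : Type} [Fintype ρ] [DecidableEq ρ] {I : Ideal (MvPolynomial ρ ℂ)} {c : ℕ}

/-! ### Weights -/

lemma lemE_mul_mem {ι : Type*} {wt : ι → ℕ} {a b : ℕ} {f g : MvPolynomial ι ℂ}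
    (hf : f ∈ Jw wt a) (hg : g ∈ Jw wt b) : f * g ∈ Jw wt (a + b) := by
  classical
  intro d hd
  rw [coeff_mul]
  refine Finset.sum_eq_zero (fun p hp => ?_)
  rw [Finset.HasAntidiagonal.mem_antidiagonal] at hp
  rw [← hp, map_add] at hd
  rcases Nat.lt_or_ge (Finsupp.weight wt p.1) a with h1 | h1
  · rw [hf _ h1, zero_mul]
  · rw [hg p.2 (by omega), mul_zero]

lemma lemE_pow_le {ι : Type*} (wt : ι → ℕ) (q : ℕ) : (Jw wt 1) ^ q ≤ Jw wt q := by
  induction q with
  | zero =>
    intro f _ d hd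
    exact absurd hd (Nat.not_lt_zero _)
  | succ q ih =>
    rw [pow_succ]
    refine Ideal.mul_le.mpr (fun f hf g hg => ?_)
    exact lemE_mul_mem (ih hf) hg

lemma lemE_nilp {ι : Type*} (wt : ι → ℕ) (q : ℕ) :
    IsNilpotent ((Jw wt 1).map (Ideal.Quotient.mk (Jw wt q))) := by
  refine ⟨q, ?_⟩
  rw [← Ideal.map_pow, Ideal.zero_eq_bot, eq_bot_iff]
  refine (Ideal.map_mono (lemE_pow_le wt q)).trans ?_
  rw [Ideal.map_quotient_self]

lemma lemE_X_mem {ι : Type*} {wt : ι → ℕ} (j : ι) (hj : 1 ≤ wt j) :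
    (X j : MvPolynomial ι ℂ) ∈ Jw wt 1 := by
  classical
  intro d hd
  rw [coeff_X, if_neg]
  rintro rfl
  rw [Finsupp.weight_single, one_smul] at hd
  omega

/-! ### Linear algebra -/

/-- Extension of an independent family. -/
lemma lemE_ext (V : Submodule ℂ (ρ → ℂ)) {κ : Type} [Fintype κ] (w : κ → (ρ → ℂ))
    (hw : LinearIndependent ℂ w) (hwV : ∀ k, w k ∈ V) {r : ℕ}
    (hr : Module.finrank ℂ V = Fintype.card κ + r) :
    ∃ b : Fin r → (ρ → ℂ), (∀ j, b j ∈ V) ∧ LinearIndependent ℂ (Sum.elim w b) := by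
  classical
  set W : Submodule ℂ (ρ → ℂ) := Submodule.span ℂ (Set.range w) with hW
  have hWV : W ≤ V := by
    rw [hW, Submodule.span_le]
    rintro _ ⟨k, rfl⟩
    exact hwV k
  have hWf : Module.finrank ℂ W = Fintype.card κ := finrank_span_eq_card hw
  obtain ⟨C₀, hC⟩ := Submodule.exists_isCompl W
  set C : Submodule ℂ (ρ → ℂ) := C₀ ⊓ V with hCdef
  have h1 : W ⊔ C = V := by
    rw [hCdef, ← sup_inf_assoc_of_le C₀ hWV, hC.sup_eq_top, top_inf_eq]
  have h2 : W ⊓ C = ⊥ := by
    rw [eq_bot_iff, ← hC.inf_eq_bot]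
    exact inf_le_inf_left _ inf_le_left
  have h3 := Submodule.finrank_sup_add_finrank_inf_eq W C
  rw [h1, h2, finrank_bot] at h3
  have h4 : Module.finrank ℂ C = r := by omega
  let b' := Module.finBasisOfFinrankEq ℂ C h4
  have hb' : LinearIndependent ℂ (fun j => (b' j : ρ → ℂ)) :=
    b'.linearIndependent.map' C.subtype (Submodule.ker_subtype C)
  refine ⟨fun j => (b' j : ρ → ℂ), fun j => (inf_le_right : C ≤ V) (b' j).2, ?_⟩
  refine LinearIndependent.sum_type hw hb' ?_
  rw [Submodule.disjoint_def]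
  intro y hy hy'
  have h5 : Submodule.span ℂ (Set.range fun j => (b' j : ρ → ℂ)) ≤ C := by
    rw [Submodule.span_le]
    rintro _ ⟨j, rfl⟩
    exact (b' j).2
  have h6 : y ∈ W ⊓ C := ⟨hy, h5 hy'⟩
  rwa [h2, Submodule.mem_bot] at h6

/-- The vectors orthogonal to independent covectors. -/
lemma lemE_orth {g : Fin c → (ρ → ℂ)} (hg : LinearIndependent ℂ g) :
    ∃ V : Submodule ℂ (ρ → ℂ), (∀ a, a ∈ V ↔ ∀ i, g i ⬝ᵥ a = 0) ∧
      Module.finrank ℂ V + c = Fintype.card ρ := by
  classical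
  set Λ : (ρ → ℂ) →ₗ[ℂ] (Fin c → ℂ) := (Matrix.of g).mulVecLin with hΛ
  refine ⟨LinearMap.ker Λ, fun a => ?_, ?_⟩
  · rw [LinearMap.mem_ker, hΛ, Matrix.mulVecLin_apply, funext_iff]
    rfl
  · have h1 : (Matrix.of g).rank = Fintype.card (Fin c) := by
      have h2 : LinearIndependent ℂ (Matrix.of g).row := hg
      exact h2.rank_matrix
    have h2 := LinearMap.finrank_range_add_finrank_ker Λ
    rw [Module.finrank_fintype_fun_eq_card] at h2
    have h3 : Module.finrank ℂ (LinearMap.range Λ) = c := by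
      rw [Fintype.card_fin] at h1
      exact h1
    omega

/-! ### Linear forms -/

/-- The linear form of a functional. -/
noncomputable def lf (l : (ρ → ℂ) →ₗ[ℂ] ℂ) : MvPolynomial ρ ℂ := ∑ r, C (l (Pi.single r 1)) * X r

lemma lf_hom (l : (ρ → ℂ) →ₗ[ℂ] ℂ) : (lf l).IsHomogeneous 1 :=
  IsHomogeneous.sum _ _ _ (fun _ _ => isHomogeneous_C_mul_X _ _)

lemma lf_apply (l : (ρ → ℂ) →ₗ[ℂ] ℂ) (w : ρ → ℂ) : ∑ r, l (Pi.single r 1) * w r = l w := by
  conv_rhs => rw [pi_eq_sum_univ' w, map_sum]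
  refine Finset.sum_congr rfl (fun r _ => ?_)
  rw [map_smul, smul_eq_mul, mul_comm]

/-- The value of a linear form. -/
lemma lf_theta {R : Type*} [CommRing R] [Algebra ℂ R] {ι : Type} [Fintype ι]
    (θ : MvPolynomial ρ ℂ →ₐ[ℂ] R) (x : ρ → ℂ) (B : ι → (ρ → ℂ)) (Y : ι → R)
    (hθ : ∀ r, θ (X r) = algebraMap ℂ R (x r) + ∑ j, algebraMap ℂ R (B j r) * Y j)
    (l : (ρ → ℂ) →ₗ[ℂ] ℂ) :
    θ (lf l) = algebraMap ℂ R (l x) + ∑ j, algebraMap ℂ R (l (B j)) * Y j := by
  rw [lf, map_sum]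
  have h1 : ∀ r, θ (C (l (Pi.single r 1)) * X r) = algebraMap ℂ R (l (Pi.single r 1) * x r) +
      ∑ j, algebraMap ℂ R (l (Pi.single r 1) * B j r) * Y j := by
    intro r
    rw [map_mul, hθ, mul_add, Finset.mul_sum]
    have h2 : θ (C (l (Pi.single r 1))) = algebraMap ℂ R (l (Pi.single r 1)) := by
      rw [← MvPolynomial.algebraMap_eq, AlgHom.commutes]
    rw [h2, map_mul]
    congr 1
    refine Finset.sum_congr rfl (fun j _ => ?_)
    rw [map_mul, mul_assoc]
  rw [Finset.sum_congr rfl (fun r _ => h1 r), Finset.sum_add_distrib, ← map_sum, lf_apply,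
    Finset.sum_comm]
  congr 1
  refine Finset.sum_congr rfl (fun j _ => ?_)
  rw [← Finset.sum_mul, ← map_sum, lf_apply]

/-! ### The contact subspace -/

/-- The derivative along a line in the direction of a vector. -/
noncomputable def gl (x v a : ρ → ℂ) (F : MvPolynomial ρ ℂ) : Polynomial ℂ :=
  ∑ r, Polynomial.C (a r) * lineP x v (pderiv r F)

lemma gl_eval_zero (x v a : ρ → ℂ) (F : MvPolynomial ρ ℂ) :
    (gl x v a F).eval 0 = grad x F ⬝ᵥ a := by
  rw [gl, Polynomial.eval_finsetSum, dotProduct]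
  refine Finset.sum_congr rfl (fun r _ => ?_)
  rw [Polynomial.eval_mul, Polynomial.eval_C, eval_lineP, zero_smul, add_zero, grad_apply, mul_comm]

lemma gl_deriv (x v : ρ → ℂ) (F : MvPolynomial ρ ℂ) :
    gl x v v F = Polynomial.derivative (lineP x v F) := by
  induction F using MvPolynomial.induction_on with
  | C t => simp [gl, lineP]
  | add p q hp hq =>
    rw [map_add, map_add, ← hp, ← hq, gl, gl, gl, ← Finset.sum_add_distrib]
    refine Finset.sum_congr rfl (fun r _ => ?_)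
    rw [map_add, map_add, mul_add]
  | mul_X p i hp =>
    rw [map_mul, Polynomial.derivative_mul, ← hp, gl, gl]
    have h1 : ∀ r, Polynomial.C (v r) * lineP x v (pderiv r (p * X i)) =
        Polynomial.C (v r) * lineP x v (pderiv r p) * lineP x v (X i) +
        (if r = i then Polynomial.C (v r) * lineP x v p else 0) := by
      intro r
      rw [pderiv_mul, map_add, map_mul, map_mul]
      by_cases hr : r = i
      · rw [if_pos hr, hr, pderiv_X_self, map_one]
        ring
      · rw [if_neg hr, pderiv_X_of_ne (Ne.symm hr), map_zero, mul_zero, add_zero, add_zero]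
        ring
    rw [Finset.sum_congr rfl (fun r _ => h1 r), Finset.sum_add_distrib, ← Finset.sum_mul,
      Finset.sum_ite_eq' Finset.univ i, if_pos (Finset.mem_univ i)]
    congr 1
    have h2 : Polynomial.derivative (lineP x v (X i : MvPolynomial ρ ℂ)) = Polynomial.C (v i) := by
      simp [lineP]
    rw [h2, mul_comm]

/-- The contact subspace. -/
lemma exists_contact_space (x v : ρ → ℂ) (F : Fin c → MvPolynomial ρ ℂ) (m : ℕ) :
    ∃ T : Submodule ℂ (ρ → ℂ), (∀ a, a ∈ T ↔ ∀ i, Polynomial.X ^ m ∣ gl x v a (F i)) ∧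
      Fintype.card ρ ≤ Module.finrank ℂ T + c * m := by
  classical
  set Λ : (ρ → ℂ) →ₗ[ℂ] (Fin c × Fin m → ℂ) := Fintype.linearCombination ℂ
    (fun r p => (lineP x v (pderiv r (F p.1))).coeff p.2.1) with hΛ
  have hΛa : ∀ a p, Λ a p = (gl x v a (F p.1)).coeff p.2.1 := by
    intro a p
    rw [hΛ, Fintype.linearCombination_apply, Finset.sum_apply, gl, Polynomial.finsetSum_coeff]
    refine Finset.sum_congr rfl (fun r _ => ?_)
    rw [Polynomial.coeff_C_mul, Pi.smul_apply, smul_eq_mul]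
  refine ⟨LinearMap.ker Λ, fun a => ?_, ?_⟩
  · rw [LinearMap.mem_ker]
    constructor
    · intro h i
      rw [Polynomial.X_pow_dvd_iff]
      intro l hl
      rw [← hΛa a (i, ⟨l, hl⟩), h]
      rfl
    · intro h
      funext p
      rw [hΛa]
      exact (Polynomial.X_pow_dvd_iff.mp (h p.1)) p.2.1 p.2.2
  · have h1 := LinearMap.finrank_range_add_finrank_ker Λ
    have h2 := Submodule.finrank_le (LinearMap.range Λ)
    rw [Module.finrank_fintype_fun_eq_card, Fintype.card_prod, Fintype.card_fin,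
      Fintype.card_fin] at h2
    rw [Module.finrank_fintype_fun_eq_card] at h1
    omega

end LemE

end Pool.Agent.HartE
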