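import Mathlib
import Pool.Agent.HartA.Basic
import Pool.Agent.HartE.Defs

/-!
Taylor expansion along a line: if `F` vanishes to order `e` along the line `x + t B j₀` and the
derivative of `F` in the direction `B j` vanishes to order `m` along it, then
`F (x + ∑ B j X j)` has weight at least `2 e`.
-/

namespace Pool.Agent.HartE

open Pool.Agent.Hartshorne Pool.Agent.HartA MvPolynomial

variable {ρ : Type} [Fintype ρ] [DecidableEq ρ]

/-- The projection of `MvPolynomial ι ℂ` to the polynomials in the variable `j₀`. -/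
noncomputable def taylor_proj {ι : Type} [DecidableEq ι] (j₀ : ι) :
    MvPolynomial ι ℂ →ₐ[ℂ] Polynomial ℂ :=
  aeval (fun j => if j = j₀ then (Polynomial.X : Polynomial ℂ) else 0)

lemma taylor_proj_coeff {ι : Type} [Fintype ι] [DecidableEq ι] (j₀ : ι) (G : MvPolynomial ι ℂ)
    (a : ℕ) : (taylor_proj j₀ G).coeff a = coeff (Finsupp.single j₀ a) G := by
  induction G using MvPolynomial.induction_on' with
  | monomial s t =>
    rw [taylor_proj, aeval_monomial, coeff_monomial]
    by_cases h : ∀ j, j ≠ j₀ → s j = 0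
    · have hs : s = Finsupp.single j₀ (s j₀) := by
        ext j
        by_cases hj : j = j₀
        · rw [hj, Finsupp.single_eq_same]
        · rw [h j hj, Finsupp.single_eq_of_ne hj]
      have h1 : (s.prod fun (i : ι) (k : ℕ) =>
          (if i = j₀ then (Polynomial.X : Polynomial ℂ) else 0) ^ k) = Polynomial.X ^ (s j₀) := by
        rw [hs, Finsupp.prod_single_index (by simp)]
        simp
      rw [h1, Polynomial.algebraMap_eq, Polynomial.coeff_C_mul_X_pow]
      by_cases ha : a = s j₀
      · rw [if_pos ha, if_pos (by rw [ha]; exact hs)]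
      · rw [if_neg ha, if_neg]
        intro h2
        apply ha
        rw [h2, Finsupp.single_eq_same]
    · push Not at h
      obtain ⟨j, hj, hsj⟩ := h
      have h1 : (s.prod fun (i : ι) (k : ℕ) =>
          (if i = j₀ then (Polynomial.X : Polynomial ℂ) else 0) ^ k) = 0 := by
        rw [Finsupp.prod]
        refine Finset.prod_eq_zero (Finsupp.mem_support_iff.mpr hsj) ?_
        rw [if_neg hj, zero_pow hsj]
      rw [h1, mul_zero, Polynomial.coeff_zero, if_neg]
      intro h2
      apply hsj
      rw [h2, Finsupp.single_eq_of_ne hj]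
  | add p q hp hq =>
    rw [map_add, Polynomial.coeff_add, hp, hq, coeff_add]

/-- The substitution `x + ∑ B j X j`. -/
noncomputable def taylor_sub {ι : Type} [Fintype ι] (x : ρ → ℂ) (B : ι → (ρ → ℂ)) :
    MvPolynomial ρ ℂ →ₐ[ℂ] MvPolynomial ι ℂ :=
  aeval (fun r => C (x r) + ∑ j, C (B j r) * X j)

lemma taylor_proj_sub {ι : Type} [Fintype ι] [DecidableEq ι] (j₀ : ι) (x : ρ → ℂ)
    (B : ι → (ρ → ℂ)) (F : MvPolynomial ρ ℂ) :
    taylor_proj j₀ (taylor_sub x B F) = lineP x (B j₀) F := by
  have h : (taylor_proj j₀).comp (taylor_sub x B) = lineP x (B j₀) := by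
    apply MvPolynomial.algHom_ext
    intro r
    rw [AlgHom.comp_apply, taylor_sub, aeval_X, map_add, map_sum]
    have h1 : ∀ t : ℂ, taylor_proj j₀ (C t) = Polynomial.C t := by
      intro t
      rw [taylor_proj, aeval_C]
      rfl
    have h2 : ∀ j, taylor_proj j₀ (C (B j r) * X j) =
        if j = j₀ then Polynomial.X * Polynomial.C (B j₀ r) else 0 := by
      intro j
      rw [map_mul, h1, taylor_proj, aeval_X]
      by_cases hj : j = j₀
      · rw [if_pos hj, if_pos hj, hj, mul_comm]
      · rw [if_neg hj, if_neg hj, mul_zero]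
    rw [h1, Finset.sum_congr rfl (fun j _ => h2 j), Finset.sum_ite_eq' Finset.univ j₀,
      if_pos (Finset.mem_univ j₀), lineP, aeval_X]
  rw [← h]
  rfl

lemma taylor_pderiv {ι : Type} [Fintype ι] [DecidableEq ι] (j : ι) (x : ρ → ℂ)
    (B : ι → (ρ → ℂ)) (F : MvPolynomial ρ ℂ) :
    pderiv j (taylor_sub x B F) = ∑ r, C (B j r) * taylor_sub x B (pderiv r F) := by
  induction F using MvPolynomial.induction_on with
  | C t =>
    simp [taylor_sub]
  | add p q hp hq =>
    rw [map_add, map_add, hp, hq, ← Finset.sum_add_distrib]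
    refine Finset.sum_congr rfl (fun r _ => ?_)
    rw [map_add, map_add, mul_add]
  | mul_X p r hp =>
    have h1 : pderiv j (taylor_sub x B (X r)) = C (B j r) := by
      rw [taylor_sub, aeval_X, map_add, pderiv_C, zero_add, map_sum]
      rw [Finset.sum_eq_single j]
      · rw [Derivation.leibniz, pderiv_C, pderiv_X_self, smul_zero, add_zero, smul_eq_mul, mul_one]
      · intro b _ hb
        rw [Derivation.leibniz, pderiv_C, pderiv_X_of_ne hb, smul_zero, smul_zero, add_zero]
      · intro h
        exact absurd (Finset.mem_univ j) h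
    have h2 : ∀ s : ρ, C (B j s) * taylor_sub x B (pderiv s (p * X r)) =
        taylor_sub x B (X r) * (C (B j s) * taylor_sub x B (pderiv s p)) +
          (if s = r then C (B j r) * taylor_sub x B p else 0) := by
      intro s
      rw [Derivation.leibniz, map_add, smul_eq_mul, smul_eq_mul, map_mul, map_mul]
      by_cases hs : s = r
      · rw [if_pos hs, hs, pderiv_X_self, map_one]
        ring
      · rw [if_neg hs, pderiv_X_of_ne (Ne.symm hs), map_zero]
        ring
    rw [map_mul, Derivation.leibniz, hp, h1, Finset.sum_congr rfl (fun s _ => h2 s),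
      Finset.sum_add_distrib, ← Finset.mul_sum, Finset.sum_ite_eq' Finset.univ r,
      if_pos (Finset.mem_univ r), smul_eq_mul, smul_eq_mul]
    ring

theorem taylor_mem {ι : Type} [Fintype ι] [DecidableEq ι] (wt : ι → ℕ) (e m : ℕ)
    (hm : e ≤ 2 * m) (x : ρ → ℂ) (B : ι → (ρ → ℂ)) (j₀ : ι) (hj₀ : wt j₀ = 2)
    (F : MvPolynomial ρ ℂ) (h1 : Polynomial.X ^ e ∣ lineP x (B j₀) F)
    (h2 : ∀ j, j ≠ j₀ → wt j = 2 * e ∨ (wt j = e ∧
      Polynomial.X ^ m ∣ ∑ r, Polynomial.C (B j r) * lineP x (B j₀) (pderiv r F))) :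
    aeval (fun r => C (x r) + ∑ j, C (B j r) * X j : ρ → MvPolynomial ι ℂ) F ∈
      Jw wt (2 * e) := by
  change taylor_sub x B F ∈ Jw wt (2 * e)
  rw [mem_Jw]
  intro d hd
  have hw : ∑ j, d j * wt j < 2 * e := by
    rw [Finsupp.weight_apply, Finsupp.sum_fintype _ _ (fun i => by simp)] at hd
    simpa [smul_eq_mul] using hd
  have hle : ∀ j, d j * wt j ≤ ∑ j, d j * wt j := fun j =>
    Finset.single_le_sum (f := fun j => d j * wt j) (fun _ _ => Nat.zero_le _) (Finset.mem_univ j)
  have hle2 : ∀ i j, i ≠ j → d i * wt i + d j * wt j ≤ ∑ j, d j * wt j := by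
    intro i j hij
    rw [← Finset.sum_pair (f := fun j => d j * wt j) hij]
    exact Finset.sum_le_sum_of_subset (Finset.subset_univ _)
  by_cases h : ∀ j, j ≠ j₀ → d j = 0
  · have hs : d = Finsupp.single j₀ (d j₀) := by
      ext j
      by_cases hj : j = j₀
      · rw [hj, Finsupp.single_eq_same]
      · rw [h j hj, Finsupp.single_eq_of_ne hj]
    have h3 : d j₀ < e := by
      have := hle j₀
      rw [hj₀] at this
      omega
    rw [hs, ← taylor_proj_coeff, taylor_proj_sub]
    exact (Polynomial.X_pow_dvd_iff.mp h1) _ h3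
  · push Not at h
    obtain ⟨j₁, hj₁, hd₁⟩ := h
    have hd1 : 1 ≤ d j₁ := Nat.one_le_iff_ne_zero.mpr hd₁
    rcases h2 j₁ hj₁ with h3 | ⟨h3, h4⟩
    · exfalso
      have h5 := hle j₁
      rw [h3] at h5
      have h6 : 1 * (2 * e) ≤ d j₁ * (2 * e) := Nat.mul_le_mul_right _ hd1
      omega
    · have hdj1 : d j₁ = 1 := by
        by_contra hne
        have h5 : 2 ≤ d j₁ := by omega
        have h6 := hle j₁
        rw [h3] at h6
        have h7 : 2 * e ≤ d j₁ * e := Nat.mul_le_mul_right _ h5
        omega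
      have hz : ∀ j, j ≠ j₀ → j ≠ j₁ → d j = 0 := by
        intro j hj hj'
        by_contra hne
        have h5 := hle2 j j₁ hj'
        rw [hdj1, h3] at h5
        have h6 : e ≤ wt j := by
          rcases h2 j hj with h | ⟨h, _⟩ <;> omega
        have h7 : 1 * e ≤ d j * wt j := Nat.mul_le_mul (Nat.one_le_iff_ne_zero.mpr hne) h6
        omega
      have hs : d = Finsupp.single j₀ (d j₀) + Finsupp.single j₁ 1 := by
        ext j
        rw [Finsupp.add_apply]
        by_cases hj : j = j₀
        · rw [hj, Finsupp.single_eq_same, Finsupp.single_eq_of_ne (Ne.symm hj₁), add_zero]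
        · by_cases hj' : j = j₁
          · rw [hj', Finsupp.single_eq_same, Finsupp.single_eq_of_ne hj₁, hdj1, zero_add]
          · rw [Finsupp.single_eq_of_ne hj, Finsupp.single_eq_of_ne hj', hz j hj hj', add_zero]
      have ha : d j₀ < m := by
        have h5 := hle2 j₀ j₁ (Ne.symm hj₁)
        rw [hdj1, h3, hj₀] at h5
        omega
      have h5 := coeff_pderiv (i := j₁) (taylor_sub x B F) (Finsupp.single j₀ (d j₀))
      rw [Finsupp.single_eq_of_ne hj₁, Nat.cast_zero, zero_add, mul_one] at h5
      rw [hs, ← h5, taylor_pderiv, ← taylor_proj_coeff, map_sum]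
      have h6 : ∀ r, taylor_proj j₀ (C (B j₁ r) * taylor_sub x B (pderiv r F)) =
          Polynomial.C (B j₁ r) * lineP x (B j₀) (pderiv r F) := by
        intro r
        rw [map_mul, taylor_proj_sub, taylor_proj, aeval_C]
        rfl
      rw [Finset.sum_congr rfl (fun r _ => h6 r)]
      exact (Polynomial.X_pow_dvd_iff.mp h4) _ ha

end Pool.Agent.HartE
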