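import Mathlib
import Pool.Agent.HartE.LemEAux
import Pool.Agent.HartE.Tang
import Pool.Agent.HartE.FlagT
import Pool.Agent.HartE.Impl
import Pool.Agent.HartE.Taylor
import Pool.Agent.HartE.Bez

/-!
A line with large contact which is not contained in the variety forces a large degree.
-/

namespace Pool.Agent.HartE

open Pool.Agent.Hartshorne Pool.Agent.HartA MvPolynomial

set_option linter.unusedSectionVars false

section LemE

variable {ρ : Type} [Fintype ρ] [DecidableEq ρ] {I : Ideal (MvPolynomial ρ ℂ)} {c : ℕ}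

lemma lemE_arith {c r e δ : ℕ} (hc : 0 < c) (he : 0 < e)
    (h : (2 * e) ^ (c + r) ≤ δ * (2 * e ^ (c - 1) * (2 * e) ^ r)) : 2 ^ (c - 1) * e ≤ δ := by
  obtain ⟨c', rfl⟩ : ∃ c', c = c' + 1 := ⟨c - 1, by omega⟩
  have h1 : c' + 1 - 1 = c' := rfl
  rw [h1] at h ⊢
  have h2 : (2 * e) ^ (c' + 1 + r) = 2 ^ c' * e * (2 * e ^ c' * (2 * e) ^ r) := by
    rw [pow_add, pow_succ, mul_pow 2 e c']
    ring
  rw [h2] at h
  exact Nat.le_of_mul_le_mul_right h (by positivity)

/-- The local parametrisation. -/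
lemma lemE_theta (hX : NX I c) {x : ρ → ℂ} (hx : x ∈ VI I) {F : Fin c → MvPolynomial ρ ℂ}
    (hF : ∀ i, F i ∈ I) (hli : LinearIndependent ℂ (fun i => grad x (F i)))
    {ι : Type} [Fintype ι] [DecidableEq ι] (wt : ι → ℕ) (hwt : ∀ j, 1 ≤ wt j) {p : ℕ} (hp : 1 ≤ p)
    (B : ι → (ρ → ℂ)) (e : Fin c → (ρ → ℂ))
    (hdet : (Matrix.of fun i l => grad x (F i) ⬝ᵥ e l).det ≠ 0)
    (hB : ∀ i, aeval (fun r => C (x r) + ∑ j, C (B j r) * X j : ρ → MvPolynomial ι ℂ) (F i) ∈
      Jw wt p) (q : ℕ) :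
    ∃ (θ : MvPolynomial ρ ℂ →ₐ[ℂ] MvPolynomial ι ℂ ⧸ Jw wt q) (φ : Fin c → MvPolynomial ι ℂ),
      (∀ g ∈ I, θ g = 0) ∧ (∀ l, φ l ∈ Jw wt p) ∧
      ∀ u : (ρ → ℂ) →ₗ[ℂ] ℂ, θ (lf u) = Ideal.Quotient.mk (Jw wt q)
        (C (u x) + ∑ j, C (u (B j)) * X j + ∑ l, C (u (e l)) * φ l) := by
  classical
  set R := MvPolynomial ι ℂ ⧸ Jw wt q with hR
  set N : Ideal R := (Jw wt 1).map (Ideal.Quotient.mk (Jw wt q)) with hN
  set A : Ideal R := (Jw wt p).map (Ideal.Quotient.mk (Jw wt q)) with hA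
  have hAN : A ≤ N := Ideal.map_mono (Jw_anti wt hp)
  set ψ : ρ → R := fun r => Ideal.Quotient.mk (Jw wt q) (C (x r) + ∑ j, C (B j r) * X j) with hψ
  have halg : ∀ t : ℂ, algebraMap ℂ R t = Ideal.Quotient.mk (Jw wt q) (C t) := fun t => rfl
  obtain ⟨φ, hφ, hφF⟩ := exists_phi (lemE_nilp wt q) hAN x ψ (by
    intro r
    rw [hψ, halg, ← map_sub, add_sub_cancel_left]
    refine Ideal.mem_map_of_mem _ (Ideal.sum_mem _ (fun j _ => ?_))
    exact Ideal.mul_mem_left _ _ (lemE_X_mem j (hwt j))) F e hdet (by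
    intro i
    have h1 : aeval ψ (F i) = Ideal.Quotient.mk (Jw wt q)
        (aeval (fun r => C (x r) + ∑ j, C (B j r) * X j : ρ → MvPolynomial ι ℂ) (F i)) := by
      have h2 : (Ideal.Quotient.mkₐ ℂ (Jw wt q)).comp
          (aeval (fun r => C (x r) + ∑ j, C (B j r) * X j : ρ → MvPolynomial ι ℂ)) =
          (aeval ψ : MvPolynomial ρ ℂ →ₐ[ℂ] R) := by
        apply MvPolynomial.algHom_ext
        intro r
        rw [AlgHom.comp_apply, aeval_X, aeval_X]
        rfl
      rw [← h2]
      rfl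
    rw [h1]
    exact Ideal.mem_map_of_mem _ (hB i))
  have hlift : ∀ l, ∃ f ∈ Jw wt p, Ideal.Quotient.mk (Jw wt q) f = φ l := by
    intro l
    have h1 := hφ l
    rw [hA, Ideal.mem_map_iff_of_surjective _ Ideal.Quotient.mk_surjective] at h1
    exact h1
  choose f hf hfφ using hlift
  set θ : MvPolynomial ρ ℂ →ₐ[ℂ] R :=
    aeval (fun r => ψ r + ∑ l, φ l * algebraMap ℂ R (e l r)) with hθ
  refine ⟨θ, f, fun g hg => ?_, hf, fun u => ?_⟩
  · obtain ⟨U, hU, hm⟩ := (point_case I hX.hI x hx c F hF hli).2 hX.hdim g hg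
    refine kill (lemE_nilp wt q) x θ (fun r => ?_) hφF hU hm
    rw [hθ, aeval_X, hψ, halg, add_sub_right_comm, ← map_sub, add_sub_cancel_left]
    refine Ideal.add_mem _ (Ideal.mem_map_of_mem _ (Ideal.sum_mem _ (fun j _ => ?_)))
      (Ideal.sum_mem _ (fun l _ => Ideal.mul_mem_right _ _ (hAN (hφ l))))
    exact Ideal.mul_mem_left _ _ (lemE_X_mem j (hwt j))
  · have h1 := lf_theta (ι := ι ⊕ Fin c) θ x (Sum.elim B e)
      (Sum.elim (fun j => Ideal.Quotient.mk (Jw wt q) (X j)) φ) (by
      intro r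
      rw [hθ, aeval_X, Fintype.sum_sum_type, hψ]
      simp only [Sum.elim_inl, Sum.elim_inr, halg, map_add, map_sum, map_mul]
      rw [add_assoc]
      congr 2
      exact Finset.sum_congr rfl (fun l _ => mul_comm _ _)) u
    rw [h1, Fintype.sum_sum_type]
    simp only [Sum.elim_inl, Sum.elim_inr, halg, map_add, map_sum, map_mul, hfφ, add_assoc]

/-- **A line with contact `e`, not contained in the variety, forces degree at least
`2 ^ (c - 1) * e`.** -/
theorem lemE (hX : NX I c) (hc : 0 < c) {n : ℕ} (hn : n + 1 + c = Fintype.card ρ)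
    (hdim : ringKrullDim (MvPolynomial ρ ℂ ⧸ I) = ((n + 1 : ℕ) : WithBot ℕ∞)) {δ : ℕ}
    (hdeg : Filter.Tendsto (fun k : ℕ => (Module.finrank ℂ (grP I k) : ℝ) / (k : ℝ) ^ n)
      Filter.atTop (nhds ((δ : ℝ) / n.factorial))) {e m : ℕ} (hm1 : m + 1 ≤ e)
    (hm2 : e ≤ 2 * m) (hN : 2 * c + 2 * (c * m) ≤ Fintype.card ρ + 1)
    {x v : ρ → ℂ} (hx0 : x ≠ 0) (hx : x ∈ VI I) (hv : v ∉ VI I)
    (hcon : ∀ F ∈ I, Polynomial.X ^ e ∣ lineP x v F) : 2 ^ (c - 1) * e ≤ δ := by
  classical
  have hm0 : 0 < m := by omega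
  obtain ⟨F, hF, hli⟩ := hX.hsm x hx0 hx
  obtain ⟨T, hT, hTd⟩ := exists_contact_space x v F m
  have hvT : v ∈ T := by
    rw [hT]
    intro i
    rw [gl_deriv]
    obtain ⟨P, hP⟩ := hcon _ (hF i)
    rw [hP]
    obtain ⟨e', rfl⟩ : ∃ e', e = e' + 1 := ⟨e - 1, by omega⟩
    rw [Polynomial.derivative_mul, Polynomial.derivative_X_pow]
    refine dvd_add (Dvd.dvd.mul_right (Dvd.dvd.mul_left ?_ _) _) (Dvd.dvd.mul_right ?_ _)
    · exact pow_dvd_pow _ (by omega)
    · exact pow_dvd_pow _ (by omega)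
  obtain ⟨a, hali, ha0, haT, hmiss⟩ := exists_flagT hX hc T (c * m) hTd hN hvT hv
  -- the tangent space
  obtain ⟨V, hV, hVd⟩ := lemE_orth hli
  have haV : ∀ k, a k ∈ V := by
    intro k
    rw [hV]
    intro i
    rw [← gl_eval_zero x v (a k) (F i)]
    obtain ⟨P, hP⟩ := (hT (a k)).mp (haT k) i
    rw [hP, Polynomial.eval_mul, Polynomial.eval_pow, Polynomial.eval_X, zero_pow hm0.ne', zero_mul]
  have hxV : x ∈ V := by
    rw [hV]
    intro i
    exact euler_grad hX.hhom hx (hF i)
  have hcm : c ≤ c * m := Nat.le_mul_of_pos_right c hm0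
  obtain ⟨r, hr⟩ : ∃ r, n = c + r := ⟨n - c, by omega⟩
  -- the bases
  have hli1 : LinearIndependent ℂ (Sum.elim (fun _ : Unit => x) a) := by
    refine LinearIndependent.sum_type (linearIndependent_unique_iff.mpr hx0) hali ?_
    rw [Submodule.disjoint_def]
    intro y hy hy'
    rw [Set.range_const, Submodule.mem_span_singleton] at hy
    obtain ⟨s, rfl⟩ := hy
    obtain ⟨z, hz⟩ := (Submodule.mem_span_range_iff_exists_fun _).mp hy'
    have h1 : comb a z = s • x := by rw [comb_apply]; exact hz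
    have h2 := hmiss z (by rw [h1]; exact VI_smul hX.hhom hx s)
    rw [← h1, h2, map_zero]
  obtain ⟨b, hbV, hli2⟩ := lemE_ext V (Sum.elim (fun _ : Unit => x) a) hli1 (by
    rintro (u | k)
    · exact hxV
    · exact haV k) (r := r) (by
      rw [Fintype.card_sum, Fintype.card_unit, Fintype.card_fin]
      omega)
  obtain ⟨e', -, hli3⟩ := lemE_ext (⊤ : Submodule ℂ (ρ → ℂ))
    (Sum.elim (Sum.elim (fun _ : Unit => x) a) b) hli2 (fun _ => Submodule.mem_top) (r := c) (by
      rw [finrank_top, Module.finrank_fintype_fun_eq_card, Fintype.card_sum, Fintype.card_sum,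
        Fintype.card_unit, Fintype.card_fin, Fintype.card_fin]
      omega)
  have hKcard : Fintype.card (((Unit ⊕ Fin c) ⊕ Fin r) ⊕ Fin c) =
      Module.finrank ℂ (ρ → ℂ) := by
    rw [Module.finrank_fintype_fun_eq_card, Fintype.card_sum, Fintype.card_sum, Fintype.card_sum,
      Fintype.card_unit, Fintype.card_fin, Fintype.card_fin]
    omega
  have hne : Nonempty (((Unit ⊕ Fin c) ⊕ Fin r) ⊕ Fin c) := ⟨Sum.inl (Sum.inl (Sum.inl ()))⟩
  set bas := basisOfLinearIndependentOfCardEqFinrank hli3 hKcard with hbas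
  have hbasv : ⇑bas = Sum.elim (Sum.elim (Sum.elim (fun _ : Unit => x) a) b) e' :=
    coe_basisOfLinearIndependentOfCardEqFinrank hli3 hKcard
  -- the index types
  set ix : Fin c ⊕ Fin r → ((Unit ⊕ Fin c) ⊕ Fin r) ⊕ Fin c :=
    Sum.elim (fun k => Sum.inl (Sum.inl (Sum.inr k))) (fun j => Sum.inl (Sum.inr j)) with hix
  have hixinj : Function.Injective ix := by
    rintro (k | j) (k' | j') h <;> simp [hix] at h ⊢ <;> exact h
  have hnr : n = r + c := by omega
  set gE : Fin n ≃ Fin r ⊕ Fin c := (finCongr hnr).trans finSumFinEquiv.symm with hgE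
  set g : Fin n → ((Unit ⊕ Fin c) ⊕ Fin r) ⊕ Fin c :=
    fun j => Sum.elim (fun j' => Sum.inl (Sum.inr j')) (fun l => Sum.inr l) (gE j) with hg
  have hg' : ∀ j, (∃ j', g j = Sum.inl (Sum.inr j')) ∨ ∃ l, g j = Sum.inr l := by
    intro j
    rcases h : gE j with j' | l
    · left
      exact ⟨j', by rw [hg]; simp only [h, Sum.elim_inl]⟩
    · right
      exact ⟨l, by rw [hg]; simp only [h, Sum.elim_inr]⟩
  set co : (((Unit ⊕ Fin c) ⊕ Fin r) ⊕ Fin c) → ((ρ → ℂ) →ₗ[ℂ] ℂ) := fun k => bas.coord k with hco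
  have hcob : ∀ k k', co k (bas k') = if k' = k then 1 else 0 := by
    intro k k'
    rw [hco]
    show bas.coord k (bas k') = _
    rw [Module.Basis.coord_apply, Module.Basis.repr_self, Finsupp.single_apply]
  set i0 : ((Unit ⊕ Fin c) ⊕ Fin r) ⊕ Fin c := Sum.inl (Sum.inl (Sum.inl ())) with hi0
  set lam : (ρ → ℂ) →ₗ[ℂ] (Fin (n + 1) → ℂ) := LinearMap.pi (fun i : Fin (n + 1) =>
    Fin.cases (motive := fun _ => (ρ → ℂ) →ₗ[ℂ] ℂ) (co i0) (fun j => co (g j)) i) with hlam
  have hlam0 : ∀ p, lam p 0 = co i0 p := fun p => rfl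
  have hlams : ∀ p (j : Fin n), lam p j.succ = co (g j) p := fun p j => rfl
  have hls0 : lsub lam (X 0) = lf (co i0) := by
    rw [lsub_X, lf]
    rfl
  have hlss : ∀ j : Fin n, lsub lam (X j.succ) = lf (co (g j)) := by
    intro j
    rw [lsub_X, lf]
    rfl
  -- no common zero
  have hno : ∀ p : ρ → ℂ, lam p = 0 → p ∈ VI I → p = 0 := by
    intro p hp hpI
    have h1 : ∀ k, (∀ k' : Fin c, k ≠ Sum.inl (Sum.inl (Sum.inr k'))) → bas.repr p k = 0 := by
      intro k hk
      rcases k with ((u | k') | j) | l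
      · have := congrFun hp 0
        rw [hlam0] at this
        exact this
      · exact absurd rfl (hk k')
      · have := congrFun hp (gE.symm (Sum.inl j)).succ
        rw [hlams, hg] at this
        simp only [Equiv.apply_symm_apply, Sum.elim_inl] at this
        exact this
      · have := congrFun hp (gE.symm (Sum.inr l)).succ
        rw [hlams, hg] at this
        simp only [Equiv.apply_symm_apply, Sum.elim_inr] at this
        exact this
    have h2 : comb a (fun k' => bas.repr p (Sum.inl (Sum.inl (Sum.inr k')))) = p := by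
      conv_rhs => rw [← bas.sum_repr p]
      rw [Fintype.sum_sum_type, Fintype.sum_sum_type, Fintype.sum_sum_type, comb_apply]
      rw [Finset.sum_eq_zero (s := (Finset.univ : Finset Unit)), zero_add,
        Finset.sum_eq_zero (s := (Finset.univ : Finset (Fin r))), add_zero,
        Finset.sum_eq_zero (s := (Finset.univ : Finset (Fin c)))
          (f := fun l => bas.repr p (Sum.inr l) • bas (Sum.inr l)), add_zero]
      · refine Finset.sum_congr rfl (fun k' _ => ?_)
        rw [hbasv]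
        rfl
      · intro l _
        rw [h1 _ (by intro k' h; cases h), zero_smul]
      · intro l _
        rw [h1 _ (by intro k' h; cases h), zero_smul]
      · intro l _
        rw [h1 _ (by intro k' h; cases h), zero_smul]
    have h3 := hmiss (fun k' => bas.repr p (Sum.inl (Sum.inl (Sum.inr k')))) (by
      rw [h2]; exact hpI)
    rw [← h2, h3, map_zero]
  -- the local parametrisation
  set B : Fin c ⊕ Fin r → (ρ → ℂ) := Sum.elim a b with hB
  have hBb : ∀ j, B j = bas (ix j) := by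
    intro j
    rw [hbasv]
    rcases j with k | j <;> rfl
  have hxb : x = bas i0 := by
    rw [hbasv]
    rfl
  have heb : ∀ l, e' l = bas (Sum.inr l) := by
    intro l
    rw [hbasv]
    rfl
  set wt : Fin c ⊕ Fin r → ℕ := Sum.elim (fun k => if k = ⟨0, hc⟩ then 2 else e)
    (fun _ => 2 * e) with hwt
  have hwt0 : ∀ j, 0 < wt j := by
    rintro (k | j)
    · show 0 < if k = ⟨0, hc⟩ then 2 else e
      split_ifs <;> omega
    · show 0 < 2 * e
      omega
  have hdet : (Matrix.of fun i l => grad x (F i) ⬝ᵥ e' l).det ≠ 0 := by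
    intro h0
    obtain ⟨z, hz0, hz⟩ := Matrix.exists_mulVec_eq_zero_iff.mpr h0
    have h1 : ∑ l, z l • e' l ∈ V := by
      rw [hV]
      intro i
      rw [dotProduct_sum]
      have h2 := congrFun hz i
      rw [Matrix.mulVec, dotProduct, Pi.zero_apply] at h2
      refine Eq.trans (Finset.sum_congr rfl (fun l _ => ?_)) h2
      rw [dotProduct_smul, smul_eq_mul, Matrix.of_apply, mul_comm]
    -- V is spanned by the first vectors
    have h2 : Submodule.span ℂ (Set.range (Sum.elim (Sum.elim (fun _ : Unit => x) a) b)) = V := by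
      apply Submodule.eq_of_le_of_finrank_eq
      · rw [Submodule.span_le]
        rintro _ ⟨(_ | _) | _, rfl⟩
        · exact hxV
        · exact haV _
        · exact hbV _
      · rw [finrank_span_eq_card hli2, Fintype.card_sum, Fintype.card_sum, Fintype.card_unit,
          Fintype.card_fin, Fintype.card_fin]
        omega
    have h3 : ∑ l, z l • e' l ∈ Submodule.span ℂ (Set.range e') :=
      Submodule.sum_mem _ (fun l _ => Submodule.smul_mem _ _ (Submodule.subset_span ⟨l, rfl⟩))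
    have h4 := (linearIndependent_sum.mp hli3)
    have h5 : ∑ l, z l • e' l = 0 := by
      have h6 := h4.2.2
      rw [Submodule.disjoint_def] at h6
      refine h6 _ ?_ ?_
      · have h7 : (Sum.elim (Sum.elim (Sum.elim (fun _ : Unit => x) a) b) e' ∘ Sum.inl) =
            Sum.elim (Sum.elim (fun _ : Unit => x) a) b := by
          funext j; rfl
        rw [h7, h2]
        exact h1
      · exact h3
    have h6 : LinearIndependent ℂ e' := h4.2.1
    exact hz0 (funext (fun l => Fintype.linearIndependent_iff.mp h6 z h5 l))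
  have hTay : ∀ i, aeval (fun s => C (x s) + ∑ j, C (B j s) * X j :
      ρ → MvPolynomial (Fin c ⊕ Fin r) ℂ) (F i) ∈ Jw wt (2 * e) := by
    intro i
    have hBv : B (Sum.inl ⟨0, hc⟩) = v := ha0
    refine taylor_mem wt e m hm2 x B (Sum.inl ⟨0, hc⟩) (by simp [hwt]) (F i) (by
      rw [hBv]
      exact hcon _ (hF i)) ?_
    rintro (k | j) hj
    · right
      refine ⟨?_, ?_⟩
      · show (if k = ⟨0, hc⟩ then 2 else e) = e
        rw [if_neg (fun h => hj (by rw [h]))]
      · rw [hBv]
        exact (hT (a k)).mp (haT k) i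
    · left
      rfl
  have hbez := weighted_bezout hX.hI hX.hhom hdim hdeg lam hno
    (ι := Fin c ⊕ Fin r) (by rw [Fintype.card_sum, Fintype.card_fin, Fintype.card_fin]; omega)
    wt hwt0 (2 * e) (by omega) (τ := fun j => lf (co (ix j))) (fun j => lf_hom _) (by
    intro q
    obtain ⟨θ, φ, hθI, hφ, hθ⟩ := lemE_theta hX hx hF hli wt (fun j => hwt0 j) (p := 2 * e)
      (by omega) B e' hdet hTay q
    refine ⟨θ, hθI, ?_, ?_, ?_⟩
    · rw [hls0, hθ, hxb, hcob, if_pos rfl]
      have h1 : ∑ j, C (co i0 (B j)) * (X j : MvPolynomial (Fin c ⊕ Fin r) ℂ) = 0 := by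
        refine Finset.sum_eq_zero (fun j _ => ?_)
        rw [hBb, hcob, if_neg (by rcases j with k | j <;> simp [hix, hi0]), C_0, zero_mul]
      have h2 : ∑ l, C (co i0 (e' l)) * φ l = 0 := by
        refine Finset.sum_eq_zero (fun l _ => ?_)
        rw [heb, hcob, if_neg (by simp [hi0]), C_0, zero_mul]
      rw [h1, h2, add_zero, add_zero, C_1, map_one]
    · intro j
      rw [hθ, hxb, hcob, if_neg (by rcases j with k | j <;> simp [hix, hi0]), C_0, zero_add]
      have h1 : ∑ j', C (co (ix j) (B j')) * (X j' : MvPolynomial (Fin c ⊕ Fin r) ℂ) = X j := by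
        rw [Finset.sum_eq_single j]
        · rw [hBb, hcob, if_pos rfl, C_1, one_mul]
        · intro j' _ hj'
          rw [hBb, hcob, if_neg (fun h => hj' (hixinj h)), C_0, zero_mul]
        · intro h; exact absurd (Finset.mem_univ _) h
      have h2 : ∑ l, C (co (ix j) (e' l)) * φ l = 0 := by
        refine Finset.sum_eq_zero (fun l _ => ?_)
        rw [heb, hcob, if_neg (by rcases j with k | j <;> simp [hix]), C_0, zero_mul]
      rw [h1, h2, add_zero]
    · intro j
      refine ⟨_, ?_, by rw [hlss, hθ]⟩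
      rw [hxb, hcob, if_neg (by
        rcases hg' j with ⟨j', hj'⟩ | ⟨l, hl⟩
        · rw [hj', hi0]; simp
        · rw [hl, hi0]; simp), C_0, zero_add]
      refine Ideal.add_mem _ (Ideal.sum_mem _ (fun j' _ => ?_))
        (Ideal.sum_mem _ (fun l _ => Ideal.mul_mem_left _ _ (hφ l)))
      rcases j' with k | j'
      · rw [hBb, hcob, if_neg (by
          rcases hg' j with ⟨j', hj'⟩ | ⟨l, hl⟩
          · rw [hj', hix]; simp
          · rw [hl, hix]; simp), C_0, zero_mul]
        exact Ideal.zero_mem _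
      · refine Ideal.mul_mem_left _ _ ?_
        intro d hd
        rw [coeff_X, if_neg]
        rintro rfl
        rw [Finsupp.weight_single, one_smul] at hd
        exact lt_irrefl _ hd)
  -- arithmetic
  have hprod : ∏ j, wt j = 2 * e ^ (c - 1) * (2 * e) ^ r := by
    rw [Fintype.prod_sum_type]
    congr 1
    · have h1 : ∀ k : Fin c, wt (Sum.inl k) = if k = ⟨0, hc⟩ then 2 else e := fun k => rfl
      rw [Finset.prod_congr rfl (fun k _ => h1 k), ← Finset.mul_prod_erase _ _
        (Finset.mem_univ (⟨0, hc⟩ : Fin c)), if_pos rfl]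
      congr 1
      rw [Finset.prod_congr rfl (g := fun _ => e) (fun k hk => if_neg (Finset.ne_of_mem_erase hk)),
        Finset.prod_const, Finset.card_erase_of_mem (Finset.mem_univ _), Finset.card_univ,
        Fintype.card_fin]
    · have h1 : ∀ j : Fin r, wt (Sum.inr j) = 2 * e := fun j => rfl
      rw [Finset.prod_congr rfl (fun j _ => h1 j), Finset.prod_const, Finset.card_univ,
        Fintype.card_fin]
  rw [hprod, hr] at hbez
  exact lemE_arith hc (by omega) hbez

end LemE

end Pool.Agent.HartE
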