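import Mathlib
import Pool.Agent.HartD.FinalD
import Pool.Agent.HartE.LemE

/-!
Hartshorne's conjecture for varieties of degree exponential in the codimension.
-/

namespace Pool.Agent.HartE

open Pool.Agent.Hartshorne Pool.Agent.HartA MvPolynomial

set_option linter.unusedSectionVars false

section Main

variable {ρ : Type} [Fintype ρ] [DecidableEq ρ] {c : ℕ}

/-- Contact of a line is independent of the second point. -/
lemma main_shift {I : Ideal (MvPolynomial ρ ℂ)} (hhom : HI I) {e : ℕ} {x v : ρ → ℂ}
    (h : ∀ F ∈ I, Polynomial.X ^ e ∣ lineP x v F) (lam : ℂ) :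
    ∀ F ∈ I, Polynomial.X ^ e ∣ lineP x (v + lam • x) F := by
  have key : ∀ (d : ℕ) (F : MvPolynomial ρ ℂ), F.IsHomogeneous d →
      Polynomial.X ^ e ∣ lineP x v F → Polynomial.X ^ e ∣ lineP x (v + lam • x) F := by
    intro d F hF hdvd
    set P := lineP x v F with hP
    have hPd : P.natDegree ≤ d := natDegree_lineP x v hF
    set Q : Polynomial ℂ := ∑ j ∈ Finset.range (d + 1), Polynomial.C (P.coeff j) *
      Polynomial.X ^ j * (1 + Polynomial.C lam * Polynomial.X) ^ (d - j) with hQ
    have h1 : lineP x (v + lam • x) F = Q := by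
      rw [← sub_eq_zero]
      apply Polynomial.eq_zero_of_infinite_isRoot
      refine Set.Infinite.mono (s := {t : ℂ | 1 + lam * t ≠ 0}) (fun t ht => ?_) ?_
      · have ht' : (1 + lam * t) ≠ 0 := ht
        show (lineP x (v + lam • x) F - Q).eval t = 0
        rw [Polynomial.eval_sub, sub_eq_zero, eval_lineP]
        have h2 : x + t • (v + lam • x) = (1 + lam * t) • (x + (t / (1 + lam * t)) • v) := by
          have h3 : (1 + lam * t) * (t / (1 + lam * t)) = t := mul_div_cancel₀ _ ht'
          rw [smul_add, smul_add, smul_smul, smul_smul, h3, add_smul, one_smul, mul_comm t lam]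
          abel
        rw [h2, eval_smul_of_isHomogeneous hF, ← eval_lineP, ← hP,
          Polynomial.eval_eq_sum_range' (Nat.lt_succ_of_le hPd), Finset.mul_sum, hQ,
          Polynomial.eval_finsetSum]
        refine Finset.sum_congr rfl (fun j hj => ?_)
        rw [Finset.mem_range, Nat.lt_succ_iff] at hj
        rw [Polynomial.eval_mul, Polynomial.eval_mul, Polynomial.eval_C, Polynomial.eval_pow,
          Polynomial.eval_pow, Polynomial.eval_X, Polynomial.eval_add, Polynomial.eval_one,
          Polynomial.eval_mul, Polynomial.eval_C, Polynomial.eval_X, div_pow]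
        have h3 : (1 + lam * t) ^ d = (1 + lam * t) ^ (d - j) * (1 + lam * t) ^ j := by
          rw [← pow_add, Nat.sub_add_cancel hj]
        rw [h3]
        have h4 := pow_ne_zero j ht'
        field_simp
      · by_cases hl : lam = 0
        · subst hl
          simp [Set.infinite_univ]
        · refine Set.Infinite.mono (s := {t : ℂ | t ≠ - 1 / lam}) (fun t ht h0 => ht ?_)
            (Set.finite_singleton (- 1 / lam)).infinite_compl
          rw [eq_div_iff hl]
          linear_combination h0
    rw [h1, hQ]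
    refine Finset.dvd_sum (fun j _ => ?_)
    by_cases hj : j < e
    · rw [(Polynomial.X_pow_dvd_iff.mp hdvd) j hj, Polynomial.C_0, zero_mul, zero_mul]
      exact dvd_zero _
    · exact Dvd.dvd.mul_right (Dvd.dvd.mul_left (pow_dvd_pow _ (not_lt.mp hj)) _) _
  intro F hF
  rw [← sum_homogeneousComponent F, map_sum]
  refine Finset.dvd_sum (fun d _ => ?_)
  exact key d _ (homogeneousComponent_isHomogeneous d F) (h _ (hhom F hF d))

/-- **Hartshorne's conjecture for varieties of degree less than `2 ^ (c - 1) * k`.** -/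
theorem core_exp {n : ℕ} (δ k m : ℕ) (hc : 0 < c) (hk : 2 ≤ k) (hm : k ≤ 2 * m) (hm1 : m + 1 ≤ k)
    (hδ : δ < 2 ^ (c - 1) * k)
    (hN : 2 * c + 3 * (c * (k - 2)) + 1 < Fintype.card ρ)
    (hN' : 2 * c + 2 * (c * m) ≤ Fintype.card ρ + 1) (hcn : n + 1 + c = Fintype.card ρ)
    (I : Ideal (MvPolynomial ρ ℂ)) (hI : I.IsPrime) (hhom : HI I)
    (hdim : ringKrullDim (MvPolynomial ρ ℂ ⧸ I) = ((n + 1 : ℕ) : WithBot ℕ∞))
    (hdeg : Filter.Tendsto (fun k : ℕ => (Module.finrank ℂ (grP I k) : ℝ) / (k : ℝ) ^ n)
      Filter.atTop (nhds ((δ : ℝ) / n.factorial)))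
    (hsm : ∀ p : ρ → ℂ, p ≠ 0 → (∀ h ∈ I, eval p h = 0) →
      ∃ q : Fin c → MvPolynomial ρ ℂ, (∀ k, q k ∈ I) ∧
        LinearIndependent ℂ (fun k => fun j => eval p (pderiv j (q k))))
    (hnd : ∀ l ∈ I, l.IsHomogeneous 1 → l = 0) :
    ∃ (G : Fin c → MvPolynomial ρ ℂ) (e : Fin c → ℕ),
      (∀ k, 1 ≤ e k ∧ (G k).IsHomogeneous (e k + 1)) ∧ ∑ i, e i ≤ c * (k - 2) ∧
      Ideal.span (Set.range G) = I := by
  classical
  have hdim' : ((Fintype.card ρ : ℕ) : WithBot ℕ∞) ≤
      ringKrullDim (MvPolynomial ρ ℂ ⧸ I) + (c : WithBot ℕ∞) := by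
    rw [hdim, ← hcn]
    exact_mod_cast le_rfl
  have hX : NX I c := by
    refine ⟨hI, hhom, hdim', fun p hp0 hp => ?_, fun H hH => ?_⟩
    · obtain ⟨q, hq, hli⟩ := hsm p hp0 hp
      refine ⟨q, hq, ?_⟩
      have h1 : (fun k => grad p (q k)) = (fun k => fun j => eval p (pderiv j (q k))) := by
        funext k j
        rw [grad_apply]
      rw [h1]
      exact hli
    · by_contra hcon
      push Not at hcon
      have h1 : ∑ b, C (H b) * X b ∈ I := by
        refine mem_of_eval_zero hI (fun p hp => ?_)
        rw [map_sum, ← hcon p hp, dotProduct]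
        exact Finset.sum_congr rfl (fun b _ => by rw [map_mul, eval_C, eval_X])
      have h2 := hnd _ h1 (IsHomogeneous.sum _ _ _ (fun b _ => isHomogeneous_C_mul_X _ _))
      apply hH
      funext b
      have h3 := congrArg (coeff (Finsupp.single b 1)) h2
      rw [coeff_sum, coeff_zero, Finset.sum_eq_single b] at h3
      · rw [coeff_C_mul, coeff_X, if_pos rfl, mul_one] at h3
        exact h3
      · intro b' _ hb'
        rw [coeff_C_mul, coeff_X, if_neg, mul_zero]
        intro h4
        exact hb' ((Finsupp.single_left_inj one_ne_zero).mp h4)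
      · intro h4
        exact absurd (Finset.mem_univ _) h4
  -- the point 0 is excluded by a linear form
  obtain ⟨b₀, hb₀⟩ : ∃ b : ρ, (X b : MvPolynomial ρ ℂ) ∉ I := by
    by_contra hcon
    push Not at hcon
    obtain ⟨p, -, hp0, hp⟩ := exists_zero (⊤ : Submodule ℂ (ρ → ℂ)) I hhom hdim' (by
      rw [finrank_top, Module.finrank_fintype_fun_eq_card]
      omega)
    apply hp0
    funext b
    have h1 := hp _ (hcon b)
    rwa [eval_X] at h1
  obtain ⟨G, e, hG, hes, hGI⟩ := core_linesD (c * (k - 2)) hc hN I hI hhom hdim' hsm (fun g hg => by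
    have hprod : g * X b₀ ∉ I := by
      intro h
      rcases hI.mem_or_mem h with h | h
      · exact hg h
      · exact hb₀ h
    obtain ⟨x, hx, hxe⟩ : ∃ x, (∀ h ∈ I, eval x h = 0) ∧ eval x (g * X b₀) ≠ 0 := by
      by_contra hcon
      push Not at hcon
      exact hprod (mem_of_eval_zero hI (fun x hx => hcon x hx))
    rw [map_mul, eval_X] at hxe
    have hx1 := left_ne_zero_of_mul hxe
    have hx2 := right_ne_zero_of_mul hxe
    have hx0 : x ≠ 0 := by
      rintro rfl
      exact hx2 rfl
    refine ⟨x, hx, hx1, ?_⟩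
    obtain ⟨F, hF, hli⟩ := hX.hsm x hx0 hx
    let E : Fin c × Fin (k - 1) → MvPolynomial ρ ℂ := fun a =>
      homogeneousComponent (a.2.1 + 1) (trs x (F a.1))
    have h1 := coneI_dim (I := I) (x := x) E (by
      intro a
      have h2 := eval_smul_of_isHomogeneous (homogeneousComponent_isHomogeneous (a.2.1 + 1)
        (trs x (F a.1))) 0 0
      rw [zero_smul, zero_pow (by omega), zero_mul] at h2
      exact h2) (by
      intro q hq
      by_contra hcon
      push Not at hcon
      obtain ⟨s, t, h₀, hh₀, hne⟩ := hcon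
      -- contact
      have hFk : ∀ i, Polynomial.X ^ k ∣ lineP x q (F i) := by
        intro i
        rw [Polynomial.X_pow_dvd_iff]
        intro j hj
        rcases j with _ | j
        · rw [Polynomial.coeff_zero_eq_eval_zero, eval_lineP, zero_smul, add_zero]
          exact hx _ (hF i)
        · rw [coeff_lineP]
          exact hq (i, ⟨j, by omega⟩)
      have hGk : ∀ G ∈ I, Polynomial.X ^ k ∣ lineP x q G := by
        intro G hG
        obtain ⟨U, hU, hm⟩ := (point_case I hI x hx c F hF hli).2 hdim' G hG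
        have h2 : Polynomial.X ^ k ∣ lineP x q (U * G) := by
          refine Submodule.span_induction (p := fun f _ => Polynomial.X ^ k ∣ lineP x q f)
            ?_ ?_ ?_ ?_ hm
          · rintro _ ⟨i, rfl⟩
            exact hFk i
          · rw [map_zero]; exact dvd_zero _
          · intro a b _ _ ha hb
            rw [map_add]; exact dvd_add ha hb
          · intro a b _ hb
            rw [smul_eq_mul, map_mul]; exact Dvd.dvd.mul_left hb _
        rw [map_mul] at h2
        refine (Polynomial.prime_X.pow_dvd_of_dvd_mul_left k ?_ h2)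
        rw [Polynomial.X_dvd_iff, Polynomial.coeff_zero_eq_eval_zero, eval_lineP, zero_smul,
          add_zero]
        exact hU
      have ht : t ≠ 0 := by
        rintro rfl
        apply hne
        rw [zero_smul, add_zero]
        exact VI_smul hhom hx s h₀ hh₀
      have hv : q + (s / t) • x ∉ VI I := by
        intro hv
        apply hne
        have h2 := VI_smul hhom hv t h₀ hh₀
        rwa [smul_add, smul_smul, mul_div_cancel₀ _ ht, add_comm] at h2
      have h2 := lemE hX hc hcn hdim hdeg hm1 hm hN' hx0 hx hv (main_shift hhom hGk _)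
      omega)
    refine h1.trans (le_of_eq ?_)
    have h3 : Fintype.card (Fin c × Fin (k - 1)) = c + c * (k - 2) := by
      rw [Fintype.card_prod, Fintype.card_fin, Fintype.card_fin]
      obtain ⟨k', rfl⟩ : ∃ k', k = k' + 2 := ⟨k - 2, by omega⟩
      have h4 : k' + 2 - 1 = k' + 1 := by omega
      have h5 : k' + 2 - 2 = k' := by omega
      rw [h4, h5]
      ring
    rw [h3])
  refine ⟨G, e, fun i => ⟨?_, hG i⟩, hes, hGI⟩
  by_contra hcon
  have he : e i = 0 := by omega
  have hGi := hG i
  rw [he, zero_add] at hGi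
  have hG0 : G i = 0 := hnd _ (hGI ▸ Ideal.subset_span ⟨i, rfl⟩) hGi
  -- then the gradients at a point span a space of dimension `c - 1`
  obtain ⟨p, -, hp0, hp⟩ := exists_zero (⊤ : Submodule ℂ (ρ → ℂ)) I hhom hdim' (by
    rw [finrank_top, Module.finrank_fintype_fun_eq_card]
    omega)
  obtain ⟨q, hq, hli⟩ := hX.hsm p hp0 hp
  have hGp : ∀ j, eval p (G j) = 0 := fun j => hp _ (hGI ▸ Ideal.subset_span ⟨j, rfl⟩)
  have hspan : ∀ f ∈ I, grad p f ∈ Submodule.span ℂ (Set.range fun j : {j : Fin c // j ≠ i} =>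
      grad p (G j.1)) := by
    intro f hf
    rw [← hGI] at hf
    have h1 : grad p f ∈ Submodule.span ℂ (Set.range fun j : {j : Fin c // j ≠ i} =>
        grad p (G j.1)) ∧ eval p f = 0 := by
      refine Submodule.span_induction (p := fun f _ => grad p f ∈ Submodule.span ℂ
        (Set.range fun j : {j : Fin c // j ≠ i} => grad p (G j.1)) ∧ eval p f = 0)
        ?_ ?_ ?_ ?_ hf
      · rintro _ ⟨j, rfl⟩
        refine ⟨?_, hGp j⟩
        by_cases hj : j = i
        · rw [hj, hG0, map_zero]
          exact Submodule.zero_mem _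
        · exact Submodule.subset_span ⟨⟨j, hj⟩, rfl⟩
      · rw [map_zero, map_zero]
        exact ⟨Submodule.zero_mem _, rfl⟩
      · rintro a b _ _ ⟨ha, ha'⟩ ⟨hb, hb'⟩
        rw [map_add, map_add, ha', hb', add_zero]
        exact ⟨Submodule.add_mem _ ha hb, rfl⟩
      · rintro a b _ ⟨hb, hb'⟩
        rw [smul_eq_mul, grad_mul, map_mul, hb', mul_zero, zero_smul, add_zero]
        exact ⟨Submodule.smul_mem _ _ hb, rfl⟩
    exact h1.1
  have h1 : Submodule.span ℂ (Set.range fun k => grad p (q k)) ≤
      Submodule.span ℂ (Set.range fun j : {j : Fin c // j ≠ i} => grad p (G j.1)) := by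
    rw [Submodule.span_le]
    rintro _ ⟨k, rfl⟩
    exact hspan _ (hq k)
  have h2 := Submodule.finrank_mono h1
  rw [finrank_span_eq_card hli, Fintype.card_fin] at h2
  have h3 := finrank_range_le_card (R := ℂ) (fun j : {j : Fin c // j ≠ i} => grad p (G j.1))
  rw [Set.finrank, Fintype.card_subtype_compl, Fintype.card_fin, Fintype.card_unique] at h3
  omega

end Main

end Pool.Agent.HartE
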